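import Pool.Agent.X268.DG.Theta

/-!
# Classes on the Tate module of a degenerating abelian variety are classes of cycles on `B × E ^ t`:
# the sum over the subsets of the variables
-/

set_option autoImplicit false

namespace Pool.Agent.X268.DG

open NumberField Module Equiv Pool.Agent.H204R3.CM Pool.Agent.H204R3.SP Pool.Agent.W547.KB
  Pool.Agent.W547.LD Pool.Agent.W547.HR Pool.Agent.W495.TA Pool.Agent.W495.TC
  Pool.Agent.TH117.PO Pool.Agent.TH117.BL Pool.Agent.W976.TA Pool.Agent.Y137.HD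
open scoped TensorProduct

noncomputable section

variable {p : ℕ} [hp : Fact p.Prime] {ν : PadicAlgCl p ≃+* ℂ}
  {Ω : Type} [Field Ω] [CharZero Ω] {t : ℕ} {B : RedAV p ν}
  {C : (Y : RedAV p ν) → (κ : Type) → ((TM Ω Y) [⋀^κ]→ₗ[Ω] Ω) → Prop}

theorem ratsmul_alt {W κ : Type} [AddCommGroup W] [Module Ω W] (a : ℚ) (f : W [⋀^κ]→ₗ[Ω] Ω) :
    (a : Ω) • f = a • f := by
  refine AlternatingMap.ext fun v => ?_
  rw [AlternatingMap.smul_apply, AlternatingMap.smul_apply, smul_eq_mul, Rat.smul_def]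

theorem alt_sum_apply {R W N κ ι : Type} [CommRing R] [AddCommGroup W] [Module R W]
    [AddCommGroup N] [Module R N] (s : Finset ι) (F : ι → W [⋀^κ]→ₗ[R] N) (v : κ → W) :
    (∑ i ∈ s, F i) v = ∑ i ∈ s, F i v := by
  classical
  induction s using Finset.induction_on with
  | empty => rw [Finset.sum_empty, Finset.sum_empty, AlternatingMap.zero_apply]
  | insert a s ha ih => rw [Finset.sum_insert ha, Finset.sum_insert ha, AlternatingMap.add_apply, ih]

theorem span_mem (hC : IsCycleSystem Ω C) {Y : RedAV p ν} {κ : Type}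
    {S : Set ((TM Ω Y) [⋀^κ]→ₗ[Ω] Ω)} (hS : ∀ g ∈ S, C Y κ g) {g : (TM Ω Y) [⋀^κ]→ₗ[Ω] Ω}
    (hg : g ∈ Submodule.span ℚ S) : C Y κ g := by
  induction hg using Submodule.span_induction with
  | mem g hg => exact hS g hg
  | zero => exact hC.zero _ _
  | add a b _ _ ha hb => exact hC.add _ _ ha hb
  | smul c a _ ha =>
    rw [← ratsmul_alt]
    exact hC.smul _ _ ha

theorem sum_mem' (hC : IsCycleSystem Ω C) {Y : RedAV p ν} {κ ι : Type} (s : Finset ι)
    (F : ι → (TM Ω Y) [⋀^κ]→ₗ[Ω] Ω) (hF : ∀ i ∈ s, C Y κ (F i)) : C Y κ (∑ i ∈ s, F i) := by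
  classical
  induction s using Finset.induction_on with
  | empty =>
    rw [Finset.sum_empty]
    exact hC.zero _ _
  | insert a s ha ih =>
    rw [Finset.sum_insert ha]
    exact hC.add _ _ (hF a (Finset.mem_insert_self a s))
      (ih fun i hi => hF i (Finset.mem_insert_of_mem hi))

section one

variable {κ κ₁ κ₂ : Type} [Fintype κ₁] [DecidableEq κ₁] [Fintype κ₂] [DecidableEq κ₂]

/-- **The part of a class belonging to a subset of the variables.** -/
theorem part_mem (hC : IsCycleSystem Ω C) {f : (VM Ω t B) [⋀^κ]→ₗ[Ω] Ω} (hw : HasWeightZero f)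
    (hi : IsInertiaInvariant f) (hs : HasAlgebraicSlices C f) (e : κ₁ ⊕ κ₂ ≃ κ) :
    ∃ G : (TM Ω (prodR B (Et p ν t))) [⋀^κ₁ ⊕ κ₂]→ₗ[Ω] Ω,
      C (prodR B (Et p ν t)) (κ₁ ⊕ κ₂) G ∧ ∀ v : κ₁ ⊕ κ₂ → (prodR B (Et p ν t)).X.H1,
        G (fun k => 1 ⊗ₜ[ℚ] v k) = ∑ σ : Perm (κ₁ ⊕ κ₂), ((Perm.sign σ : ℤ) : Ω) *
          sliceMap f e (fun l => tz t B (v (σ (Sum.inl l))))
            (fun l => 1 ⊗ₜ[ℚ] pQ B (Et p ν t) (v (σ (Sum.inr l)))) := by
  classical
  obtain ⟨n, l, g, hg, hd⟩ := exists_decomp (sliceMap f e)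
  have hgC : ∀ i, C B κ₂ (g i) := by
    intro i
    refine span_mem hC ?_ (hg i)
    rintro _ ⟨z, rfl⟩
    exact hs κ₁ κ₂ e (fun l i => (bK p).coord 0 (z l i)) (fun l i => (bK p).coord 1 (z l i)) _
      fun b => rfl
  have hext : ∀ i, ∃ F : (TM Ω (Et p ν t)) [⋀^κ₁]→ₗ[Ω] Ω, C (Et p ν t) κ₁ F ∧
      ∀ z : κ₁ → Fin t → Kf p, res (Y := Et p ν t) F z = ((l i (sliceMap f e z) : ℚ) : Ω) := by
    intro i
    obtain ⟨F, hF⟩ := exists_ext (ν := ν) Ω (Y := Et p ν t)
      ((l i).compAlternatingMap (sliceMap f e))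
    refine ⟨F, toric_mem' hC ((l i).compAlternatingMap (sliceMap f e)) ?_ ?_ F hF, hF⟩
    · intro a ha z
      exact congrArg (l i) (sliceMap_dil hw e a ha z)
    · intro z
      exact congrArg (l i) (sliceMap_uni hi e z)
  choose F hFC hF using hext
  refine ⟨∑ i, cupO ((F i).compLinearMap ((pQ' B (Et p ν t)).baseChange Ω))
    ((g i).compLinearMap ((pQ B (Et p ν t)).baseChange Ω)), ?_, fun v => ?_⟩
  · refine sum_mem' hC _ _ fun i _ => ?_
    exact hC.cup _ _ (hC.pull _ (isHom_pQ' B (Et p ν t)) _ (hFC i))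
      (hC.pull _ (isHom_pQ B (Et p ν t)) _ (hgC i)) _ fun v => cupO_apply _ _ v
  · rw [alt_sum_apply]
    have h1 : ∀ i, cupO ((F i).compLinearMap ((pQ' B (Et p ν t)).baseChange Ω))
        ((g i).compLinearMap ((pQ B (Et p ν t)).baseChange Ω)) (fun k => 1 ⊗ₜ[ℚ] v k) =
        ∑ σ : Perm (κ₁ ⊕ κ₂), ((Perm.sign σ : ℤ) : Ω) *
          (((l i (sliceMap f e (fun l => tz t B (v (σ (Sum.inl l))))) : ℚ) : Ω) *
            g i (fun l => 1 ⊗ₜ[ℚ] pQ B (Et p ν t) (v (σ (Sum.inr l))))) := by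
      intro i
      rw [cupO_apply]
      unfold altSum times
      refine Finset.sum_congr rfl fun σ _ => ?_
      congr 1
      congr 1
      exact hF i fun l => tz t B (v (σ (Sum.inl l)))
    rw [Finset.sum_congr rfl fun i _ => h1 i, Finset.sum_comm]
    refine Finset.sum_congr rfl fun σ _ => ?_
    rw [← Finset.mul_sum]
    congr 1
    have h2 := congrArg (fun G : (TM Ω B) [⋀^κ₂]→ₗ[Ω] Ω =>
      G (fun l => 1 ⊗ₜ[ℚ] pQ B (Et p ν t) (v (σ (Sum.inr l)))))
      (hd fun l => tz t B (v (σ (Sum.inl l))))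
    refine Eq.trans ?_ h2.symm
    change _ = (∑ i, l i _ • g i) _
    rw [alt_sum_apply]
    refine Finset.sum_congr rfl fun i _ => ?_
    rw [AlternatingMap.smul_apply, Rat.smul_def]

end one

/-- **The classes on the Tate module of a degenerating abelian variety are classes of cycles on
`B × E ^ t`.** -/
theorem cycle_mem (hC : IsCycleSystem Ω C) {κ : Type} [Fintype κ] {f : (VM Ω t B) [⋀^κ]→ₗ[Ω] Ω}
    (hw : HasWeightZero f) (hi : IsInertiaInvariant f) (hs : HasAlgebraicSlices C f) :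
    C (prodR B (Et p ν t)) κ (f.compLinearMap (Theta Ω t B)) := by
  classical
  let e : ∀ S : Finset κ, {k // k ∈ S} ⊕ {k // k ∉ S} ≃ κ := fun S => Equiv.sumCompl (· ∈ S)
  choose G hGC hG using fun S : Finset κ => part_mem hC hw hi hs (e S)
  have hmem : C (prodR B (Et p ν t)) κ
      ((((Fintype.card (Perm κ) : ℚ)⁻¹ : ℚ) : Ω) • ∑ S : Finset κ, (G S).domDomCongr (e S)) :=
    hC.smul _ _ (sum_mem' hC _ _ fun S _ => hC.reindex (e S) _ (hGC S))
  have hkey : f.compLinearMap (Theta Ω t B) =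
      ((((Fintype.card (Perm κ) : ℚ)⁻¹ : ℚ) : Ω) • ∑ S : Finset κ, (G S).domDomCongr (e S)) := by
    refine ext_res (Y := prodR B (Et p ν t)) fun v => ?_
    set a : κ → VM Ω t B := fun k => torK Ω B (tz t B (v k)) with ha
    set b : κ → VM Ω t B := fun k => abe t (1 ⊗ₜ[ℚ] pQ B (Et p ν t) (v k)) with hb
    have h1 : res (f.compLinearMap (Theta Ω t B)) v = f (a + b) := by
      change f (fun k => Theta Ω t B (1 ⊗ₜ[ℚ] v k)) = _
      congr 1
      funext k
      exact Theta_one Ω t B (v k)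
    have h2 : ∀ S : Finset κ, (G S).domDomCongr (e S) (fun k => 1 ⊗ₜ[ℚ] v k) =
        ∑ σ : Perm κ, ((Perm.sign σ : ℤ) : Ω) *
          f (S.piecewise (fun k => a (σ k)) (fun k => b (σ k))) := by
      intro S
      have h3 := hG S (fun k => v (e S k))
      have h4 : (G S).domDomCongr (e S) (fun k => 1 ⊗ₜ[ℚ] v k) =
        G S (fun k => 1 ⊗ₜ[ℚ] (fun k => v (e S k)) k) := rfl
      rw [h4, h3]
      refine Fintype.sum_equiv (Equiv.permCongr (e S)) _ _ fun σ => ?_
      rw [Equiv.Perm.sign_permCongr]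
      congr 1
      rw [sliceMap_apply]
      congr 1
      funext k
      obtain ⟨k, rfl⟩ := (e S).surjective k
      rw [(e S).symm_apply_apply]
      have h6 : (Equiv.permCongr (e S)) σ (e S k) = e S (σ k) := by
        rw [Equiv.permCongr_apply, (e S).symm_apply_apply]
      rcases k with k | k
      · have h5 : e S (Sum.inl k) ∈ S := k.2
        rw [Finset.piecewise_eq_of_mem _ _ _ h5, h6]
        rfl
      · have h5 : e S (Sum.inr k) ∉ S := k.2
        rw [Finset.piecewise_eq_of_notMem _ _ _ h5, h6]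
        rfl
    have h3 : res (((((Fintype.card (Perm κ) : ℚ)⁻¹ : ℚ) : Ω) •
        ∑ S : Finset κ, (G S).domDomCongr (e S))) v =
        (((Fintype.card (Perm κ) : ℚ)⁻¹ : ℚ) : Ω) *
          ∑ S : Finset κ, (G S).domDomCongr (e S) (fun k => 1 ⊗ₜ[ℚ] v k) := by
      change (((((Fintype.card (Perm κ) : ℚ)⁻¹ : ℚ) : Ω) •
        ∑ S : Finset κ, (G S).domDomCongr (e S))) (fun k => 1 ⊗ₜ[ℚ] v k) = _
      rw [AlternatingMap.smul_apply, alt_sum_apply, smul_eq_mul]
    have h4 : ∑ S : Finset κ, (G S).domDomCongr (e S) (fun k => 1 ⊗ₜ[ℚ] v k) =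
        (Fintype.card (Perm κ) : Ω) * f (a + b) := by
      rw [Finset.sum_congr rfl fun S _ => h2 S, Finset.sum_comm]
      have h5 : ∀ σ : Perm κ, ∑ S : Finset κ, ((Perm.sign σ : ℤ) : Ω) *
          f (S.piecewise (fun k => a (σ k)) (fun k => b (σ k))) = f (a + b) := by
        intro σ
        have h6 := f.toMultilinearMap.map_add_univ (fun k => a (σ k)) (fun k => b (σ k))
        have h7 : f.toMultilinearMap ((fun k => a (σ k)) + fun k => b (σ k)) =
          (Perm.sign σ) • f (a + b) := f.map_perm (a + b) σ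
        rw [h7] at h6
        rw [← Finset.mul_sum]
        change _ * (∑ S : Finset κ, f.toMultilinearMap
          (S.piecewise (fun k => a (σ k)) (fun k => b (σ k)))) = _
        rw [← h6, Units.smul_def, zsmul_eq_mul, ← mul_assoc, ← Int.cast_mul, ← Units.val_mul,
          Int.units_mul_self, Units.val_one, Int.cast_one, one_mul]
      rw [Finset.sum_congr rfl fun σ _ => h5 σ, Finset.sum_const, Finset.card_univ, nsmul_eq_mul]
    have h5 : (Fintype.card (Perm κ) : Ω) ≠ 0 := Nat.cast_ne_zero.2 Fintype.card_ne_zero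
    rw [h1, h3, h4, Rat.cast_inv, Rat.cast_natCast, inv_mul_cancel_left₀ h5]
  rw [hkey]
  exact hmem

end

end Pool.Agent.X268.DG
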