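import Pool.Agent.Y137.HD.Defs

/-!
# Abelian varieties with semistable degenerations: definitions
-/

set_option autoImplicit false

namespace Pool.Agent.X268.DG

open NumberField Pool.Agent.H204R3.CM Pool.Agent.W547.KB Pool.Agent.W547.HR Pool.Agent.W495.TA
  Pool.Agent.TH117.PO Pool.Agent.Y137.HD Module
open scoped TensorProduct

universe u

variable {p : ℕ} [Fact p.Prime] {ν : PadicAlgCl p ≃+* ℂ}

/-- The Tate module (coefficients in `Ω`) of an abelian variety `X` over a local field with
semistable reduction, toric rank `t`, character lattice `M` and period lattice `Λ`, whose Raynaud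
extension has the abelian part `B`. It is the sum of the weight spaces of a Frobenius element: the
dual of `M` (weight `-2`), `Λ` (weight `0`) and the Tate module of `B` (weight `-1`). Rational bases
of the dual of `M` and of `Λ` are chosen. -/
def VT (Ω : Type) [Field Ω] [CharZero Ω] (t : ℕ) (B : RedAV p ν) : Type :=
  (Fin t → Ω) × (Fin t → Ω) × TM Ω B

noncomputable instance (Ω : Type) [Field Ω] [CharZero Ω] (t : ℕ) (B : RedAV p ν) :
    AddCommGroup (VT Ω t B) :=
  (Prod.instAddCommGroup : AddCommGroup ((Fin t → Ω) × (Fin t → Ω) × TM Ω B))

noncomputable instance (Ω : Type) [Field Ω] [CharZero Ω] (t : ℕ) (B : RedAV p ν) :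
    Module Ω (VT Ω t B) :=
  (Prod.instModule : Module Ω ((Fin t → Ω) × (Fin t → Ω) × TM Ω B))

/-- The cohomology classes of `X` in the degree `card κ`: the alternating forms in variables indexed by
`κ` on its Tate module. -/
def FormT (Ω : Type) [Field Ω] [CharZero Ω] (t : ℕ) (B : RedAV p ν) (κ : Type) : Type :=
  (VT Ω t B) [⋀^κ]→ₗ[Ω] Ω

variable {Ω : Type} [Field Ω] [CharZero Ω] {t : ℕ} {B : RedAV p ν} {κ : Type}

/-- The values of a form. -/
noncomputable def FormT.val (f : FormT Ω t B κ) (v : κ → VT Ω t B) : Ω :=
  AlternatingMap.toMultilinearMap f v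

/-- The vector with the rational components `x` in the dual of `M` and `y` in `Λ` and the component `b` in
the Tate module of `B`. -/
def vec (x y : Fin t → ℚ) (b : TM Ω B) : VT Ω t B := (fun i => (x i : Ω), fun i => (y i : Ω), b)

/-- The operator that multiplies the dual of `M` with `a`, and `Λ` with `a⁻¹`. -/
def scale (a : ℚ) (v : VT Ω t B) : VT Ω t B :=
  (fun i => (a : Ω) * v.1 i, fun i => ((a⁻¹ : ℚ) : Ω) * v.2.1 i, v.2.2)

/-- The unipotent operator `exp N`, where the monodromy operator `N` takes the basis of `Λ` to the basis
of the dual of `M`. -/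
def expN (v : VT Ω t B) : VT Ω t B := (fun i => v.1 i + v.2.1 i, v.2.1, v.2.2)

/-- The form `f` has weight zero: if some of the variables are in each of the three weight spaces then it
is zero unless the numbers of the variables in the dual of `M` and in `Λ` are equal. -/
def HasWeight (f : FormT Ω t B κ) : Prop :=
  ∀ a : ℚ, a ≠ 0 → ∀ v, f.val (fun k => scale a (v k)) = f.val v

/-- The form `f` is fixed by the inertia group. -/
def IsUnipotentInvariant (f : FormT Ω t B κ) : Prop :=
  ∀ v, f.val (fun k => expN (v k)) = f.val v

/-- Inserting rational vectors of the toric part for some of the variables of `f` gives the class of an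
algebraic cycle (in the space `C B`) on `B`, in the other variables. -/
def HasSlices (C : (Y : RedAV p ν) → (κ : Type) → ((TM Ω Y) [⋀^κ]→ₗ[Ω] Ω) → Prop)
    (f : FormT Ω t B κ) : Prop :=
  ∀ (κ₁ κ₂ : Type) (e : κ₁ ⊕ κ₂ ≃ κ) (x y : κ₁ → Fin t → ℚ) (g : (TM Ω B) [⋀^κ₂]→ₗ[Ω] Ω),
    (∀ b : κ₂ → TM Ω B, g b = f.val fun k =>
      Sum.elim (fun l => vec (x l) (y l) 0) (fun l => vec 0 0 (b l)) (e.symm k)) → C B κ₂ g

/-- The alternating form on rational vectors that belongs to the polarization: the sum of the form
`∑ i, c i (x i y' i - y i x' i)` on the toric part and of the Riemann form of a polarization of `B`. -/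
noncomputable def polE (c : Fin t → ℚ) (β : B.X.H1) (v w : (Fin t → ℚ) × (Fin t → ℚ) × B.X.H1) : ℚ :=
  ∑ i, c i * (v.1 i * w.2.1 i - v.2.1 i * w.1 i) + riemannForm B.X β v.2.2 w.2.2

variable {A : Type u} [CommRing A] [Algebra ℚ A]

/-- Formal properties of the classes of cycles: `A` is the ring of algebraic cycles with rational
coefficients on an abelian variety `X` modulo homological equivalence (`inj`), and the class of the cycle
`z ∈ gr r` of codimension `r` is the alternating form `cls r z` in `2 r` variables on the Tate module of
`X`. The product of cycles is the cup product (`mul`): the product of forms of degrees `2 r` and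
`2 s` is the alternating sum of their product, divided by `(2 r)! (2 s)!`. -/
structure IsClassMap (gr : ℕ → Submodule ℚ A) (cls : ∀ r : ℕ, A → FormT Ω t B (Fin r × Fin 2)) :
    Prop where
  add : ∀ r, ∀ a ∈ gr r, ∀ b ∈ gr r, ∀ v, (cls r (a + b)).val v = (cls r a).val v + (cls r b).val v
  smul : ∀ r, ∀ q : ℚ, ∀ a ∈ gr r, ∀ v, (cls r (q • a)).val v = (q : Ω) * (cls r a).val v
  inj : ∀ r, ∀ a ∈ gr r, (∀ v, (cls r a).val v = 0) → a = 0
  one : ∀ v, (cls 0 1).val v = 1
  mul : ∀ r s, ∀ a ∈ gr r, ∀ b ∈ gr s, ∀ v,
    ((2 * r).factorial * (2 * s).factorial : ℕ) * (cls (r + s) (a * b)).val v =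
      altSum (times (cls r a).val (cls s b).val) fun k => v (join r s k)

/-- The abelian variety `X` of dimension `n` over a field `K` of characteristic `p` (with the ring `A`
of algebraic cycles with rational coefficients modulo `ℓ`-adic homological equivalence and the ample
divisor `D`) has, over a local field `F` of characteristic `p` containing `K` (a field of Laurent series
over a finite field), and up to isogeny, semistable reduction with toric rank `t` and abelian part `B`, an
abelian variety over an algebraic closure of the field with `p` elements. The class of the cycle `z` of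
codimension `r` is the alternating form `cls r z` in `2 r` variables on the Tate module `VT Ω t B` of `X`
(the Tate twists are trivialized).

The bases: the polarization `D` gives a definite rational quadratic form `E (N y, y)` on `Λ`; we take an
orthogonal rational basis of `Λ` and its image under `N` (or under `- N`, which gives the same invariants)
in the dual of `M`. So `E` is given by numbers `c i > 0` on the toric part (`polE`). The fields
`weight`, `inertia` hold since the class of a cycle is fixed by an open subgroup of the Galois group of
`F`: by a Frobenius element and by a power of `exp N`. The field `cycle` is the specialization of cycles: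
`X` has (Mumford, Künnemann) a projective strictly semistable model, the components of whose special
fibre and of their intersections are toric bundles over `B`, so the complex of Rapoport and Zink for the
middle graded part of the cohomology of `X` is a sum of complexes `H^c (B) ⊗ (rational vector spaces)`; the
restrictions of a cycle on the model to the components are algebraic. -/
structure Degenerates (C : (Y : RedAV p ν) → (κ : Type) → ((TM Ω Y) [⋀^κ]→ₗ[Ω] Ω) → Prop)
    (n : ℕ) (gr : ℕ → Submodule ℚ A) (D : A) (t : ℕ) (c : Fin t → ℚ) (B : RedAV p ν) (β : B.X.H1)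
    (cls : ∀ r : ℕ, A → FormT Ω t B (Fin r × Fin 2)) : Prop where
  dim : 2 * n = 2 * t + finrank ℚ B.X.H1
  classMap : IsClassMap gr cls
  /-- the class of `D` is the polarization form -/
  divisor : ∀ w : Fin 1 × Fin 2 → (Fin t → ℚ) × (Fin t → ℚ) × B.X.H1,
    (cls 1 D).val (fun k => vec (w k).1 (w k).2.1 (1 ⊗ₜ[ℚ] (w k).2.2)) =
      ((polE c β (w (0, 0)) (w (0, 1)) : ℚ) : Ω)
  /-- the Frobenius weights -/
  weight : ∀ r, ∀ a ∈ gr r, HasWeight (cls r a)
  /-- the inertia group -/
  inertia : ∀ r, ∀ a ∈ gr r, IsUnipotentInvariant (cls r a)
  /-- specialization of cycles to a semistable model -/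
  cycle : ∀ r, ∀ a ∈ gr r, HasSlices C (cls r a)

end Pool.Agent.X268.DG
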