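import Pool.Agent.Y137.HD.Main
import Pool.Agent.Y137.HS.Small
import Pool.Agent.X268.DG.Stm

/-!
# Abelian varieties with semistable degenerations
-/

set_option autoImplicit false

namespace Pool.Agent.X268.DG

open NumberField Pool.Agent.H204R3.CM Pool.Agent.W547.KB Pool.Agent.W547.HR Pool.Agent.W495.TA
  Pool.Agent.TH117.PO Pool.Agent.Y137.HD Module
open scoped TensorProduct

variable {p : ℕ} [Fact p.Prime] {ν : PadicAlgCl p ≃+* ℂ}

/-- The Tate module (coefficients in `Ω`) of an abelian variety `X` over a local field with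
semistable reduction, toric rank `t`, character lattice `M` and period lattice `Λ`, whose Raynaud
extension has the abelian part `B`. It is the sum of the weight spaces of a Frobenius element: the
dual of `M` (weight `-2`), `Λ` (weight `0`) and the Tate module of `B` (weight `-1`). Rational bases
of the dual of `M` and of `Λ` are chosen. -/
abbrev VM (Ω : Type) [Field Ω] [CharZero Ω] (t : ℕ) (B : RedAV p ν) : Type :=
  (Fin t → Ω) × (Fin t → Ω) × TM Ω B

variable {Ω : Type} [Field Ω] [CharZero Ω] {t : ℕ} {B : RedAV p ν}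

/-- A vector with rational toric components: `x` in the dual of `M` and `y` in `Λ`. -/
def tor (Ω : Type) [Field Ω] [CharZero Ω] (B : RedAV p ν) {t : ℕ} (x y : Fin t → ℚ) : VM Ω t B :=
  (fun i => (x i : Ω), fun i => (y i : Ω), 0)

/-- A vector in the Tate module of `B`. -/
def abe (t : ℕ) (b : TM Ω B) : VM Ω t B := (0, 0, b)

/-- The form `f` has weight zero: it is fixed by the operators `(a, a⁻¹, 1)` on the three weight
spaces (so if some variables are in the weight spaces, it is zero unless the numbers of the variables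
in the dual of `M` and in `Λ` are equal). -/
def HasWeightZero {κ : Type} (f : (VM Ω t B) [⋀^κ]→ₗ[Ω] Ω) : Prop :=
  ∀ a : ℚ, a ≠ 0 → ∀ v : κ → VM Ω t B,
    f (fun k => ((a : Ω) • (v k).1, ((a⁻¹ : ℚ) : Ω) • (v k).2.1, (v k).2.2)) = f v

/-- The form `f` is fixed by the unipotent operator `exp N`, where the monodromy operator `N` takes the
basis of `Λ` to the basis of the dual of `M`. -/
def IsInertiaInvariant {κ : Type} (f : (VM Ω t B) [⋀^κ]→ₗ[Ω] Ω) : Prop :=
  ∀ v : κ → VM Ω t B, f (fun k => ((v k).1 + (v k).2.1, (v k).2.1, (v k).2.2)) = f v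

/-- Inserting vectors with rational toric components for some of the variables of `f` gives the class
of an algebraic cycle (in the space `C B`) on `B`, in the other variables. -/
def HasAlgebraicSlices (C : (Y : RedAV p ν) → (κ : Type) → ((TM Ω Y) [⋀^κ]→ₗ[Ω] Ω) → Prop)
    {κ : Type} (f : (VM Ω t B) [⋀^κ]→ₗ[Ω] Ω) : Prop :=
  ∀ (κ₁ κ₂ : Type) (e : κ₁ ⊕ κ₂ ≃ κ) (x y : κ₁ → Fin t → ℚ) (g : (TM Ω B) [⋀^κ₂]→ₗ[Ω] Ω),
    (∀ b : κ₂ → TM Ω B, g b = f fun k =>
      Sum.elim (fun l => tor Ω B (x l) (y l)) (fun l => abe t (b l)) (e.symm k)) → C B κ₂ g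

/-- The alternating form on rational vectors that belongs to the polarization: the sum of the form
`∑ i, c i (x i y' i - y i x' i)` on the toric part and of the Riemann form of a polarization of `B`. -/
noncomputable def polForm {t : ℕ} (c : Fin t → ℚ) {B : RedAV p ν} (β : B.X.H1)
    (v w : (Fin t → ℚ) × (Fin t → ℚ) × B.X.H1) : ℚ :=
  ∑ i, c i * (v.1 i * w.2.1 i - v.2.1 i * w.1 i) + riemannForm B.X β v.2.2 w.2.2

end Pool.Agent.X268.DG
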