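import Pool.Agent.X268.DG.Cyc

/-!
# Abelian varieties with semistable degenerations behave as if they specialized to `B × E ^ t`
-/

set_option autoImplicit false

namespace Pool.Agent.X268.DG

open NumberField Module Equiv Pool.Agent.H204R3.CM Pool.Agent.H204R3.SP Pool.Agent.W547.KB
  Pool.Agent.W547.LD Pool.Agent.W547.HR Pool.Agent.W495.TA Pool.Agent.W495.TC
  Pool.Agent.TH117.PO Pool.Agent.TH117.BL Pool.Agent.W976.TA Pool.Agent.Y137.HD
open scoped TensorProduct

noncomputable section

universe u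

variable {p : ℕ} [hp : Fact p.Prime] {ν : PadicAlgCl p ≃+* ℂ}

/-! ### Dimensions -/

/-- The homology of the product. -/
def prodEquiv (B E : RedAV p ν) : (prodR B E).X.H1 ≃ₗ[ℚ] (B.X.H1 × E.X.H1) where
  toFun w := (pQ B E w, pQ' B E w)
  map_add' _ _ := rfl
  map_smul' _ _ := rfl
  invFun v := hQ B E v.1 + hQ' B E v.2
  left_inv z := LinearMap.congr_fun (hQ_pQ B E) z
  right_inv := by
    rintro ⟨v, v'⟩
    have e1 : pQ B E (hQ B E v) = v := rfl
    have e2 : pQ B E (hQ' B E v') = 0 := rfl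
    have e3 : pQ' B E (hQ B E v) = 0 := rfl
    have e4 : pQ' B E (hQ' B E v') = v' := rfl
    dsimp only
    rw [map_add, map_add, e1, e2, e3, e4, add_zero, zero_add]

theorem finrank_Et (t : ℕ) : finrank ℚ (Et p ν t).X.H1 = 2 * t := by
  change finrank ℚ (Fin t → Kf p) = 2 * t
  rw [finrank_pi_fintype, Finset.sum_const, Finset.card_univ, Fintype.card_fin, smul_eq_mul,
    finrank_Kf, mul_comm]

theorem finrank_prodR (B : RedAV p ν) (t : ℕ) :
    finrank ℚ (prodR B (Et p ν t)).X.H1 = 2 * t + finrank ℚ B.X.H1 := by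
  rw [LinearEquiv.finrank_eq (prodEquiv B (Et p ν t)), Module.finrank_prod, finrank_Et, add_comm]

/-! ### Elementary relations -/

theorem isPowers_self (B : RedAV p ν) : IsPowersTimesSupersingular B B :=
  fun i => Or.inr ⟨i, RingHom.id _, 1, 1, one_pos, one_pos, rfl, rfl⟩

theorem elementary_of_le (B : RedAV p ν) (h : finrank ℚ B.X.H1 ≤ 8) :
    Pool.Agent.Y137.SF.HasElementaryRelationsS B := by
  classical
  have h0 : finrank ℚ B.X.H1 = ∑ i, finrank ℚ (B.X.factor i).E := by
    change finrank ℚ ((i : B.X.I) → (B.X.factor i).E) = _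
    rw [finrank_pi_fintype]
  refine fun e he => AddSubgroup.subset_closure ⟨e, he, Or.inr (Or.inl ⟨Set.univ,
    Or.inr ⟨?_, ?_⟩, fun w _ => trivial⟩), fun _ => rfl⟩
  · simp only [Set.mem_univ, if_true]
    rw [h0] at h
    omega
  · rintro i - k - ⟨h1, h2, -⟩
    have hik : i ≠ k := by
      rintro rfl
      omega
    have h3 : finrank ℚ (B.X.factor i).E + finrank ℚ (B.X.factor k).E ≤
        ∑ i, finrank ℚ (B.X.factor i).E := by
      rw [← Finset.sum_pair (f := fun i => finrank ℚ (B.X.factor i).E) hik]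
      exact Finset.sum_le_sum_of_subset (Finset.subset_univ _)
    omega

/-! ### The comparison map is surjective -/

section surj

variable (Ω : Type) [Field Ω] [CharZero Ω] (t : ℕ) (B : RedAV p ν)

theorem torK_gen (i : Fin t) : torK Ω B (Pi.single i (gen p) : Fin t → Kf p) =
    ((Pi.single i 1 : Fin t → Ω), (0 : Fin t → Ω), (0 : TM Ω B)) := by
  unfold torK tor
  refine Prod.ext ?_ (Prod.ext ?_ rfl)
  · funext k
    change (((bK p).coord 0 ((Pi.single i (gen p) : Fin t → Kf p) k) : ℚ) : Ω) =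
      (Pi.single i 1 : Fin t → Ω) k
    by_cases hk : k = i
    · subst hk
      rw [Pi.single_eq_same, ← bK_zero, coord_self, Rat.cast_one, Pi.single_eq_same]
    · rw [Pi.single_eq_of_ne hk, Pi.single_eq_of_ne hk, map_zero, Rat.cast_zero]
  · funext k
    change (((bK p).coord 1 ((Pi.single i (gen p) : Fin t → Kf p) k) : ℚ) : Ω) = _
    by_cases hk : k = i
    · subst hk
      rw [Pi.single_eq_same, ← bK_zero, coord_ne p (by decide), Rat.cast_zero]
      rfl
    · rw [Pi.single_eq_of_ne hk, map_zero, Rat.cast_zero]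
      rfl

theorem torK_one (i : Fin t) : torK Ω B (Pi.single i (1 : Kf p) : Fin t → Kf p) =
    ((0 : Fin t → Ω), (Pi.single i 1 : Fin t → Ω), (0 : TM Ω B)) := by
  unfold torK tor
  refine Prod.ext ?_ (Prod.ext ?_ rfl)
  · funext k
    change (((bK p).coord 0 ((Pi.single i (1 : Kf p) : Fin t → Kf p) k) : ℚ) : Ω) = _
    by_cases hk : k = i
    · subst hk
      rw [Pi.single_eq_same, ← bK_one, coord_ne p (by decide), Rat.cast_zero]
      rfl
    · rw [Pi.single_eq_of_ne hk, map_zero, Rat.cast_zero]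
      rfl
  · funext k
    change (((bK p).coord 1 ((Pi.single i (1 : Kf p) : Fin t → Kf p) k) : ℚ) : Ω) =
      (Pi.single i 1 : Fin t → Ω) k
    by_cases hk : k = i
    · subst hk
      rw [Pi.single_eq_same, ← bK_one, coord_self, Rat.cast_one, Pi.single_eq_same]
    · rw [Pi.single_eq_of_ne hk, Pi.single_eq_of_ne hk, map_zero, Rat.cast_zero]

theorem abe_add (a b : TM Ω B) : (abe t (a + b) : VM Ω t B) = abe t a + abe t b := by
  unfold abe
  simp

theorem abe_smul (a : Ω) (b : TM Ω B) : (abe t (a • b) : VM Ω t B) = a • abe t b := by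
  unfold abe
  simp

theorem torK_zero : (torK Ω B (0 : Fin t → Kf p) : VM Ω t B) = 0 := by
  unfold torK tor
  refine Prod.ext ?_ (Prod.ext ?_ rfl)
  · funext k
    change (((bK p).coord 0 (0 : Kf p) : ℚ) : Ω) = _
    rw [map_zero, Rat.cast_zero]
    rfl
  · funext k
    change (((bK p).coord 1 (0 : Kf p) : ℚ) : Ω) = _
    rw [map_zero, Rat.cast_zero]
    rfl

theorem Theta_tor (z : Fin t → Kf p) :
    Theta Ω t B (1 ⊗ₜ[ℚ] hQ' B (Et p ν t) z) = torK Ω B z := by
  rw [Theta_one]
  have h1 : tz t B (hQ' B (Et p ν t) z) = z := rfl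
  have h2 : pQ B (Et p ν t) (hQ' B (Et p ν t) z) = 0 := rfl
  rw [h1, h2, TensorProduct.tmul_zero]
  unfold abe
  exact add_zero _

theorem Theta_abe (b : TM Ω B) :
    Theta Ω t B ((hQ B (Et p ν t)).baseChange Ω b) = abe t b := by
  induction b using TensorProduct.induction_on with
  | zero =>
    rw [map_zero, map_zero]
    rfl
  | tmul a x =>
    rw [LinearMap.baseChange_tmul]
    have h1 : (a ⊗ₜ[ℚ] hQ B (Et p ν t) x : TM Ω (prodR B (Et p ν t))) =
        a • (1 ⊗ₜ[ℚ] hQ B (Et p ν t) x) := by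
      rw [TensorProduct.smul_tmul', smul_eq_mul, mul_one]
    have h2 : (a ⊗ₜ[ℚ] x : TM Ω B) = a • (1 ⊗ₜ[ℚ] x) := by
      rw [TensorProduct.smul_tmul', smul_eq_mul, mul_one]
    rw [h1, map_smul, Theta_one, h2, abe_smul]
    have h3 : tz t B (hQ B (Et p ν t) x) = 0 := rfl
    have h4 : pQ B (Et p ν t) (hQ B (Et p ν t) x) = x := rfl
    rw [h3, h4, torK_zero, zero_add]
  | add x y hx hy => rw [map_add, map_add, hx, hy, abe_add]

theorem Theta_surjective : Function.Surjective (Theta Ω t B) := by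
  rw [← LinearMap.range_eq_top, eq_top_iff]
  rintro ⟨x, y, b⟩ -
  have h1 : ((x, y, b) : VM Ω t B) = (∑ i, x i • torK Ω B (Pi.single i (gen p) : Fin t → Kf p)) +
      (∑ i, y i • torK Ω B (Pi.single i (1 : Kf p) : Fin t → Kf p)) + abe t b := by
    have h2 : (∑ i, x i • torK Ω B (Pi.single i (gen p) : Fin t → Kf p)) =
        (LinearMap.inl Ω (Fin t → Ω) ((Fin t → Ω) × TM Ω B)) (∑ i, x i • Pi.single i 1) := by
      rw [map_sum]
      refine Finset.sum_congr rfl fun i _ => ?_
      rw [torK_gen, map_smul]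
      rfl
    have h3 : (∑ i, y i • torK Ω B (Pi.single i (1 : Kf p) : Fin t → Kf p)) =
        (LinearMap.inr Ω (Fin t → Ω) ((Fin t → Ω) × TM Ω B))
          ((LinearMap.inl Ω (Fin t → Ω) (TM Ω B)) (∑ i, y i • Pi.single i 1)) := by
      rw [map_sum, map_sum]
      refine Finset.sum_congr rfl fun i _ => ?_
      rw [torK_one, map_smul, map_smul]
      rfl
    have h4 : ∀ x : Fin t → Ω, ∑ i, x i • (Pi.single i 1 : Fin t → Ω) = x := by
      intro x
      funext k
      rw [Finset.sum_apply, Finset.sum_eq_single k]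
      · simp
      · intro i _ hi
        rw [Pi.smul_apply, Pi.single_eq_of_ne (Ne.symm hi), smul_zero]
      · intro h
        exact absurd (Finset.mem_univ k) h
    rw [h2, h3, h4, h4]
    unfold abe
    simp
  rw [h1]
  refine Submodule.add_mem _ (Submodule.add_mem _ ?_ ?_) ?_
  · refine Submodule.sum_mem _ fun i _ => Submodule.smul_mem _ _ ?_
    exact ⟨_, Theta_tor Ω t B _⟩
  · refine Submodule.sum_mem _ fun i _ => Submodule.smul_mem _ _ ?_
    exact ⟨_, Theta_tor Ω t B _⟩
  · exact ⟨_, Theta_abe Ω t B b⟩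

end surj

/-! ### The polarization -/

/-- The polarization of `B × E ^ t`. -/
def polar (t : ℕ) (c : Fin t → ℚ) (B : RedAV p ν) (β : B.X.H1) : (prodR B (Et p ν t)).X.H1 :=
  B.X.pair (Et p ν t).X β (fun i => (((c i / (2 * p) : ℚ)) • gen p : Kf p))

theorem isPolar_polar (t : ℕ) (c : Fin t → ℚ) (hc : ∀ i, 0 < c i) (B : RedAV p ν) (β : B.X.H1)
    (hβ : IsPolar B.X β) : IsPolar (prodR B (Et p ν t)).X (polar t c B β) := by
  rintro (i | i) φ hφ
  · exact hβ i φ hφ
  · have hp0 : (0 : ℚ) < p := by exact_mod_cast hp.out.pos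
    exact isPolar_kp p t (fun i => c i / (2 * p)) (fun i => div_pos (hc i) (by positivity)) i φ hφ

theorem riemann_polar (t : ℕ) (c : Fin t → ℚ) (B : RedAV p ν) (β : B.X.H1)
    (v w : (prodR B (Et p ν t)).X.H1) :
    riemannForm (prodR B (Et p ν t)).X (polar t c B β) v w =
      polE c β (fun i => (bK p).coord 0 (tz t B v i), fun i => (bK p).coord 1 (tz t B v i),
          pQ B (Et p ν t) v)
        (fun i => (bK p).coord 0 (tz t B w i), fun i => (bK p).coord 1 (tz t B w i),
          pQ B (Et p ν t) w) := by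
  have h1 : riemannForm (prodR B (Et p ν t)).X (polar t c B β) v w =
      riemannForm B.X β (pQ B (Et p ν t) v) (pQ B (Et p ν t) w) +
        riemannForm (power (kp p) t) (fun i => (((c i / (2 * p) : ℚ)) • gen p : Kf p))
          (tz t B v) (tz t B w) := by
    unfold riemannForm
    exact Fintype.sum_sum_type _
  have hp0 : (p : ℚ) ≠ 0 := Nat.cast_ne_zero.2 hp.out.ne_zero
  rw [h1, riemann_kp p t (fun i => c i / (2 * p)) (tz t B v) (tz t B w)]
  unfold polE
  rw [add_comm]
  congr 1
  refine Finset.sum_congr rfl fun i _ => ?_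
  rw [om_apply]
  field_simp

/-! ### The main construction -/

variable {Ω : Type} [Field Ω] [CharZero Ω]
  {C : (Y : RedAV p ν) → (κ : Type) → ((TM Ω Y) [⋀^κ]→ₗ[Ω] Ω) → Prop}
  {A : Type u} {n : ℕ} {t : ℕ} {c : Fin t → ℚ} {B : RedAV p ν} {β : B.X.H1}

/-- The alternating map underlying a form. -/
def toAlt {κ : Type} (f : FormT Ω t B κ) : (VM Ω t B) [⋀^κ]→ₗ[Ω] Ω := f

theorem toAlt_apply {κ : Type} (f : FormT Ω t B κ) (v : κ → VM Ω t B) : toAlt f v = f.val v :=
  rfl

theorem HasWeight.alt {κ : Type} {f : FormT Ω t B κ} (h : HasWeight f) : HasWeightZero (toAlt f) :=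
  fun a ha v => by
    rw [toAlt_apply, toAlt_apply]
    exact h a ha v

theorem IsUnipotentInvariant.alt {κ : Type} {f : FormT Ω t B κ} (h : IsUnipotentInvariant f) :
    IsInertiaInvariant (toAlt f) :=
  fun v => by
    rw [toAlt_apply, toAlt_apply]
    exact h v

theorem vec_zero (b : TM Ω B) : (vec (0 : Fin t → ℚ) (0 : Fin t → ℚ) b : VM Ω t B) = abe t b := by
  unfold vec abe
  refine Prod.ext ?_ (Prod.ext ?_ rfl)
  · funext i
    exact Rat.cast_zero
  · funext i
    exact Rat.cast_zero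

theorem HasSlices.alt {κ : Type} {f : FormT Ω t B κ} (h : HasSlices C f) :
    HasAlgebraicSlices C (toAlt f) := by
  intro κ₁ κ₂ e x y g hg
  refine h κ₁ κ₂ e x y g fun b => (hg b).trans ?_
  rw [toAlt_apply]
  congr 1
  funext k
  rcases e.symm k with l | l
  · rfl
  · exact (vec_zero (b l)).symm

theorem vec_add (x y : Fin t → ℚ) (b : TM Ω B) :
    (tor Ω B x y + abe t b : VM Ω t B) = vec x y b := by
  unfold vec tor abe
  simp

/-- The forms on the Tate module of `B × E ^ t`. -/
def spT (cls : ∀ r : ℕ, A → FormT Ω t B (Fin r × Fin 2)) (r : ℕ) (a : A) :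
    Form Ω (prodR B (Et p ν t)) r :=
  (toAlt (cls r a)).compLinearMap (Theta Ω t B)

theorem spT_val (cls : ∀ r : ℕ, A → FormT Ω t B (Fin r × Fin 2)) (r : ℕ) (a : A)
    (v : Fin r × Fin 2 → (prodR B (Et p ν t)).X.H1) :
    (spT cls r a).val v = (cls r a).val fun k => torK Ω B (tz t B (v k)) +
      abe t (1 ⊗ₜ[ℚ] pQ B (Et p ν t) (v k)) := by
  change toAlt (cls r a) (fun k => Theta Ω t B (1 ⊗ₜ[ℚ] v k)) = _
  rw [toAlt_apply]
  congr 1
  funext k
  exact Theta_one Ω t B (v k)

variable [CommRing A] [Algebra ℚ A] {gr : ℕ → Submodule ℚ A} {deg : A →ₗ[ℚ] ℚ} {D : A}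
  {cls : ∀ r : ℕ, A → FormT Ω t B (Fin r × Fin 2)}

/-- **The abelian variety behaves as if it specialized to `B × E ^ t`.** -/
theorem Degenerates.specializes (hC : IsCycleSystem Ω C)
    (h : Degenerates C n gr D t c B β cls) :
    Specializes C n gr D (prodR B (Et p ν t)) (polar t c B β) (spT cls) where
  dim := by rw [h.dim, finrank_prodR]
  add r a ha b hb v := by
    rw [spT_val, spT_val, spT_val, h.classMap.add r a ha b hb]
  smul r q a ha v := by
    rw [spT_val, spT_val, h.classMap.smul r q a ha]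
  inj r a ha h0 := by
    refine h.classMap.inj r a ha ?_
    have h1 : (toAlt (cls r a)).compLinearMap (Theta Ω t B) = 0 :=
      ext_res (Y := prodR B (Et p ν t)) fun v => h0 v
    intro v
    choose w hw using fun k => Theta_surjective Ω t B (v k)
    have h2 := congrArg (fun f : (TM Ω (prodR B (Et p ν t))) [⋀^Fin r × Fin 2]→ₗ[Ω] Ω => f w) h1
    have h3 : v = fun k => Theta Ω t B (w k) := funext fun k => (hw k).symm
    rw [h3]
    exact (toAlt_apply (cls r a) fun k => Theta Ω t B (w k)).symm.trans h2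
  one v := by
    rw [spT_val]
    exact h.classMap.one _
  mul r s a ha b hb v := by
    rw [spT_val]
    refine (h.classMap.mul r s a ha b hb _).trans ?_
    unfold altSum times
    refine Finset.sum_congr rfl fun σ _ => ?_
    rw [spT_val, spT_val]
  cycle r a ha := cycle_mem hC (h.weight r a ha).alt (h.inertia r a ha).alt (h.cycle r a ha).alt
  divisor w := by
    rw [spT_val, riemann_polar]
    refine Eq.trans ?_ (h.divisor fun k => (fun i => (bK p).coord 0 (tz t B (w k) i),
      fun i => (bK p).coord 1 (tz t B (w k) i), pQ B (Et p ν t) (w k)))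
    congr 1
    funext k
    exact vec_add _ _ _

/-- **Numerical and homological equivalence for abelian varieties with semistable degenerations.** -/
theorem numEqHom_of_degenerates [IsAlgClosed Ω] (hC : Pool.Agent.Y137.HS.IsCycleSystemS Ω C)
    (hRos : IsRosatiPositive Ω C) (hT : AreTate Ω C)
    (hB : finrank ℚ B.X.H1 ≤ 8 ∨ ∃ Z : RedAV p ν, Pool.Agent.Y137.SF.HasElementaryRelationsS Z ∧
      IsPowersTimesSupersingular Z B)
    (hc : ∀ i, 0 < c i) (hβ : IsPolar B.X β) (h : Degenerates C n gr D t c B β cls)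
    (hR : IsCycleRing n gr deg D) (hA : LefschetzA n gr D) : NumEqHom n gr deg := by
  have hY : ∃ Z : RedAV p ν, Pool.Agent.Y137.SF.HasElementaryRelationsS Z ∧
      IsPowersTimesSupersingular Z (prodR B (Et p ν t)) := by
    rcases hB with h1 | ⟨Z, h1, h2⟩
    · exact ⟨B, elementary_of_le B h1, powersTimes p ν (isPowers_self B) t⟩
    · exact ⟨Z, h1, powersTimes p ν h2 t⟩
  exact numEqHom_of_specializes hC hRos hT (Or.inr hY) (isPolar_polar t c hc B β hβ)
    (h.specializes hC.toIsCycleSystem) hR hA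

end

end Pool.Agent.X268.DG
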