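import Pool.Agent.X268.DG.Inv
import Pool.Agent.Y137.HD.Main

/-!
# Powers of the supersingular elliptic curve with complex multiplication by `√-p`
-/

set_option autoImplicit false

namespace Pool.Agent.X268.DG

open NumberField Module Pool.Agent.H204R3.CM Pool.Agent.H204R3.SP Pool.Agent.W547.KB
  Pool.Agent.W547.LD Pool.Agent.W547.HR Pool.Agent.W495.TA Pool.Agent.W495.TC
  Pool.Agent.TH117.PO Pool.Agent.TH117.BL
open scoped TensorProduct

noncomputable section

section field

variable (p : ℕ) [hp : Fact p.Prime]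

theorem linInd : LinearIndependent ℚ ![gen p, (1 : Kf p)] := by
  rw [LinearIndependent.pair_iff]
  intro s t h
  have h1 : (s : ℂ) * th p + t = 0 := by
    have h2 := congrArg (fun x : Kf p => (x : ℂ)) h
    simp only [ZeroMemClass.coe_zero] at h2
    rw [← h2]
    simp only [gen, IntermediateField.coe_add, IntermediateField.coe_smul, OneMemClass.coe_one]
    rw [Rat.smul_def, Rat.smul_def, mul_one]
  have hp0 : (0 : ℝ) < Real.sqrt p := Real.sqrt_pos.2 (by exact_mod_cast hp.out.pos)
  have him := congrArg Complex.im h1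
  have hre := congrArg Complex.re h1
  unfold th at him hre
  simp at him hre
  have hs : s = 0 := by
    rcases him with h3 | h3
    · exact_mod_cast h3
    · exact absurd h3 hp.out.ne_zero
  refine ⟨hs, ?_⟩
  exact_mod_cast hre

/-- The basis `√-p`, `1`. -/
def bK : Basis (Fin 2) ℚ (Kf p) :=
  basisOfLinearIndependentOfCardEqFinrank (linInd p) (by rw [finrank_Kf]; rfl)

theorem bK_zero : bK p 0 = gen p := by
  unfold bK
  rw [coe_basisOfLinearIndependentOfCardEqFinrank]
  rfl

theorem bK_one : bK p 1 = 1 := by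
  unfold bK
  rw [coe_basisOfLinearIndependentOfCardEqFinrank]
  rfl

theorem expand (x : Kf p) : x = ((bK p).coord 0 x) • gen p + ((bK p).coord 1 x) • (1 : Kf p) := by
  have h := (bK p).sum_repr x
  rw [Fin.sum_univ_two, bK_zero, bK_one] at h
  exact h.symm

theorem emb_ext {R : Type} [Ring R] [Algebra ℚ R] (φ ψ : Kf p →+* R) (h : φ (gen p) = ψ (gen p)) :
    φ = ψ := by
  have h1 : φ.toRatAlgHom = ψ.toRatAlgHom := by
    refine AlgHom.toLinearMap_injective ((bK p).ext fun i => ?_)
    fin_cases i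
    · change φ (bK p 0) = ψ (bK p 0)
      rw [bK_zero, h]
    · change φ (bK p 1) = ψ (bK p 1)
      rw [bK_one, map_one, map_one]
  exact RingHom.ext fun x => AlgHom.congr_fun h1 x

theorem conj_gen : IsCMField.complexConj (Kf p) (gen p) = -gen p := by
  have h1 := IsCMField.complexEmbedding_complexConj (K := Kf p)
    (algebraMap (Kf p) ℂ) (gen p)
  have h2 : (algebraMap (Kf p) ℂ) (gen p) = th p := rfl
  rw [h2] at h1
  have h3 : (starRingEnd ℂ) (th p) = -th p := by
    unfold th
    rw [map_mul, Complex.conj_ofReal, Complex.conj_I, mul_neg]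
  rw [h3] at h1
  refine (algebraMap (Kf p) ℂ).injective ?_
  rw [h1, map_neg, h2]

theorem trace_gen : Algebra.trace ℚ (Kf p) (gen p) = 0 := by
  have h1 := Algebra.trace_eq_of_algEquiv
    ((IsCMField.complexConj (Kf p)).restrictScalars ℚ) (gen p)
  have h2 : ((IsCMField.complexConj (Kf p)).restrictScalars ℚ) (gen p) = -gen p := conj_gen p
  rw [h2, map_neg] at h1
  linarith

theorem trace_one : Algebra.trace ℚ (Kf p) 1 = 2 := by
  have h1 := Algebra.trace_algebraMap (S := Kf p) (1 : ℚ)
  rw [map_one, finrank_Kf] at h1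
  rw [h1]
  norm_num

/-- The symplectic form. -/
def om : Kf p →ₗ[ℚ] Kf p →ₗ[ℚ] ℚ :=
  LinearMap.mk₂ ℚ (fun x y => (bK p).coord 0 x * (bK p).coord 1 y -
    (bK p).coord 1 x * (bK p).coord 0 y)
    (by intro a b c; simp only [map_add]; ring)
    (by intro a b c; simp only [map_smul, smul_eq_mul]; ring)
    (by intro a b c; simp only [map_add]; ring)
    (by intro a b c; simp only [map_smul, smul_eq_mul]; ring)

theorem om_apply (x y : Kf p) : om p x y = (bK p).coord 0 x * (bK p).coord 1 y -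
    (bK p).coord 1 x * (bK p).coord 0 y := rfl

theorem coord_self (i : Fin 2) : (bK p).coord i (bK p i) = 1 := by
  rw [Basis.coord_apply, Basis.repr_self, Finsupp.single_eq_same]

theorem coord_ne {i j : Fin 2} (h : i ≠ j) : (bK p).coord i (bK p j) = 0 := by
  rw [Basis.coord_apply, Basis.repr_self, Finsupp.single_apply, if_neg (Ne.symm h)]

theorem om_basis (x y : Fin 2) : om p (bK p x) (bK p y) = Pool.Agent.H204R3.SP.JJ oth sgn x y := by
  rw [om_apply]
  fin_cases x <;> fin_cases y <;> simp [Pool.Agent.H204R3.SP.JJ, oth, sgn]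

/-- The form is the trace form of a polarization. -/
theorem trace_form (x y : Kf p) :
    Algebra.trace ℚ (Kf p) (gen p * IsCMField.complexConj (Kf p) x * y) =
      2 * p * om p x y := by
  set a := (bK p).coord 0 x with ha
  set b := (bK p).coord 1 x with hb
  set c := (bK p).coord 0 y with hc
  set d := (bK p).coord 1 y with hd
  have hx : IsCMField.complexConj (Kf p) x = -(a • gen p) + b • (1 : Kf p) := by
    conv_lhs => rw [expand p x]
    rw [map_add]
    have h1 : ∀ (q : ℚ) (z : Kf p), IsCMField.complexConj (Kf p) (q • z) =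
        q • IsCMField.complexConj (Kf p) z := fun q z => map_rat_smul _ q z
    rw [h1, h1, conj_gen, map_one, smul_neg]
  have h1 : gen p * IsCMField.complexConj (Kf p) x * y =
      (b * d + p * (a * c)) • gen p + (p * (a * d - b * c)) • (1 : Kf p) := by
    rw [hx]
    conv_lhs => rw [expand p y]
    have hg := gen_sq p
    simp only [Rat.smul_def, ← ha, ← hb, ← hc, ← hd]
    push_cast
    linear_combination (-(a : Kf p) * c * gen p - (a : Kf p) * d + b * c) * hg
  rw [h1, map_add, map_smul, map_smul, trace_gen, trace_one, om_apply]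
  simp only [smul_eq_mul]
  ring

end field

section av

variable (p : ℕ) [hp : Fact p.Prime] (ν : PadicAlgCl p ≃+* ℂ)

theorem integral_gen : IsIntegral ℤ (gen p) := by
  refine ⟨Polynomial.X ^ 2 + Polynomial.C (p : ℤ), Polynomial.monic_X_pow_add_C _ two_ne_zero, ?_⟩
  rw [← Polynomial.aeval_def]
  simp only [map_add, map_pow, Polynomial.aeval_X, map_natCast]
  rw [gen_sq p, neg_add_cancel]

theorem weil_gen (φ : Kf p →+* ℂ) : ‖φ (gen p)‖ ^ 2 = (p : ℝ) ^ 1 := by
  rw [← norm_pow, map_gen_sq p φ, norm_neg, Complex.norm_natCast, pow_one]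

theorem samePlace_all (φ φ' : Kf p →+* ℂ) : SamePlace p ν φ φ' := by
  have h1 := map_gen_sq p φ
  have h2 := map_gen_sq p φ'
  rcases sq_eq_sq_iff_eq_or_eq_neg.1 (h2.trans h1.symm) with h | h
  · have h3 : φ' = φ := emb_ext p _ _ h
    refine ⟨AlgEquiv.refl, fun x => ?_⟩
    rw [h3]
    simp
  · obtain ⟨τ, hτ⟩ := exists_move p (ν.symm (φ (gen p))) (by
      rw [← map_pow, h1, map_neg, map_natCast])
    have h3 : φ' = ((ν : PadicAlgCl p →+* ℂ).comp ((τ : PadicAlgCl p →+* PadicAlgCl p).comp
        ((ν.symm : ℂ →+* PadicAlgCl p).comp φ))) := by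
      refine emb_ext p _ _ ?_
      change φ' (gen p) = ν (τ (ν.symm (φ (gen p))))
      rw [hτ, map_neg, ν.apply_symm_apply, h]
    exact ⟨τ, fun x => RingHom.congr_fun h3 x⟩

theorem st_gen (φ : Kf p →+* ℂ) :
    ‖ν.symm (φ (gen p))‖ ^ Nat.card {φ' : Kf p →+* ℂ // SamePlace p ν φ φ'} =
      ‖(p : PadicAlgCl p) ^ 1‖ ^ Nat.card {φ' : Kf p →+* ℂ // SamePlace p ν φ φ' ∧
        φ' ∈ {φ : Kf p →+* ℂ | 0 < (φ (gen p)).im}} := by
  have hc1 : Nat.card {φ' : Kf p →+* ℂ // SamePlace p ν φ φ'} = 2 := by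
    rw [Nat.card_congr (Equiv.subtypeUnivEquiv (p := fun φ' : Kf p →+* ℂ =>
      SamePlace p ν φ φ') (samePlace_all p ν φ)), Nat.card_eq_fintype_card]
    exact (Embeddings.card (Kf p) ℂ).trans (finrank_Kf p)
  have hc2 : Nat.card {φ' : Kf p →+* ℂ // SamePlace p ν φ φ' ∧
      φ' ∈ {φ : Kf p →+* ℂ | 0 < (φ (gen p)).im}} = 1 := by
    rw [Nat.card_eq_one_iff_unique]
    constructor
    · refine ⟨fun a b => Subtype.ext ?_⟩
      have ha : 0 < (a.1 (gen p)).im := a.2.2
      have hb : 0 < (b.1 (gen p)).im := b.2.2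
      have h1 := map_gen_sq p a.1
      have h2 := map_gen_sq p b.1
      rcases sq_eq_sq_iff_eq_or_eq_neg.1 (h1.trans h2.symm) with h | h
      · exact emb_ext p _ _ h
      · rw [h, Complex.neg_im] at ha
        exact absurd ha (by linarith)
    · refine ⟨⟨algebraMap (Kf p) ℂ, samePlace_all p ν _ _, ?_⟩⟩
      change 0 < ((algebraMap (Kf p) ℂ) (gen p)).im
      have h2 : (algebraMap (Kf p) ℂ) (gen p) = th p := rfl
      rw [h2]
      unfold th
      simp
      exact hp.out.pos
  rw [hc1, hc2, pow_one, pow_one, ← norm_pow]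
  have h2 : (ν.symm (φ (gen p))) ^ 2 = -(p : PadicAlgCl p) := by
    rw [← map_pow, map_gen_sq p φ, map_neg, map_natCast]
  rw [h2, norm_neg]

theorem frob_kp : IsFrobenius p ν (kp p) 1 (gen p) where
  integral := integral_gen p
  weil := weil_gen p
  shimuraTaniyama := st_gen p ν

/-- The power `E ^ t` of the supersingular elliptic curve with complex multiplication by `√-p`. -/
def Et (t : ℕ) : RedAV p ν where
  X := power (kp p) t
  a := 1
  pos := one_pos
  π := fun _ => gen p
  frob := fun _ => frob_kp p ν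

theorem gen_pow (a : ℕ) : ((gen p) ^ a) ^ (2 * 2) = ((p : Kf p) ^ (a * 1)) ^ 2 := by
  have h := gen_sq p
  rw [← pow_mul, mul_one, ← pow_mul, mul_comm a (2 * 2), mul_assoc, pow_mul, h,
    neg_pow, mul_comm a 2, Even.neg_one_pow (even_two_mul _), one_mul]

theorem pow_aux {R : Type} [CommRing R] (x q : R) (a s : ℕ) (h : x ^ (2 * s) = (q ^ a) ^ s) :
    (x ^ 1) ^ (2 * s) = (q ^ (a * 1)) ^ s := by
  rw [pow_one, mul_one, h]

theorem isSupersingular_prod (B : RedAV p ν) (t : ℕ) (i : Fin t) :
    IsSupersingular (Pool.Agent.W976.TA.prodR B (Et p ν t)) (Sum.inr i) :=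
  ⟨2, two_pos, gen_pow p B.a⟩

theorem powersTimes {Z B : RedAV p ν} (h : IsPowersTimesSupersingular Z B) (t : ℕ) :
    IsPowersTimesSupersingular Z (Pool.Agent.W976.TA.prodR B (Et p ν t)) := by
  rintro (i | i)
  · rcases h i with ⟨s, hs, h1⟩ | ⟨k, ι, s, t', hs, ht, h1, h2⟩
    · exact Or.inl ⟨s, hs, pow_aux (B.π i) (p : (B.X.factor i).E) B.a s h1⟩
    · refine Or.inr ⟨k, ι, s, t', hs, ht, ?_, ?_⟩
      · change B.a * 1 * s = Z.a * t'
        rw [mul_one]
        exact h1
      · exact (congrArg (fun x => x ^ s) (pow_one (B.π i))).trans h2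
  · exact Or.inl (isSupersingular_prod p ν B t i)

end av

end

end Pool.Agent.X268.DG
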