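import Pool.Agent.X268.DG.HTdefs
import Pool.Agent.X268.DG.Deg

/-!
# The standard conjecture of Hodge type for abelian varieties with semistable degenerations
-/

set_option autoImplicit false

namespace Pool.Agent.X268.DG

open NumberField Module Equiv Pool.Agent.H204R3.CM Pool.Agent.W547.KB
  Pool.Agent.W547.LD Pool.Agent.W547.HR Pool.Agent.W495.TA
  Pool.Agent.TH117.PO Pool.Agent.TH117.BL Pool.Agent.W976.TA Pool.Agent.Y137.HD
open scoped TensorProduct

universe u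

variable {p : ℕ} [Fact p.Prime] {ν : PadicAlgCl p ≃+* ℂ} {Ω : Type} [Field Ω] [CharZero Ω]
  {C : (Y : RedAV p ν) → (κ : Type) → ((TM Ω Y) [⋀^κ]→ₗ[Ω] Ω) → Prop}
  {A : Type u} [CommRing A] [Algebra ℚ A] {n : ℕ} {gr : ℕ → Submodule ℚ A} {deg : A →ₗ[ℚ] ℚ} {D : A}
  {Y : RedAV p ν} {α : Y.X.H1} {sp : ∀ r : ℕ, A → Form Ω Y r}

/-- The self-intersections of primitive classes are positive. -/
theorem spec_positive (h : Specializes C n gr D Y α sp) (hR : IsCycleRing n gr deg D)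
    (hpos : ∀ (r m : ℕ), 2 * (2 * r + m) = finrank ℚ Y.X.H1 →
      ∀ z : (TM Ω Y) [⋀^Fin r × Fin 2]→ₗ[Ω] Ω, C Y (Fin r × Fin 2) z → z ≠ 0 → IsPrim α m z →
        IsPosClass α m z) {j m : ℕ} (hjm : 2 * j + m = n) {a : A} (ha : a ∈ gr j)
    (hprim : D ^ (m + 1) * a = 0) (ha0 : a ≠ 0) :
    ∃ q : ℚ, 0 < q ∧ ((-1) ^ j : ℚ) • (a * (a * D ^ m)) = q • D ^ n := by
  have hf0 : (show (TM Ω Y) [⋀^Fin j × Fin 2]→ₗ[Ω] Ω from sp j a) ≠ 0 := fun h1 =>
    ha0 (h.inj j a ha fun v => by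
      change res (show (TM Ω Y) [⋀^Fin j × Fin 2]→ₗ[Ω] Ω from sp j a) v = 0
      rw [h1]
      rfl)
  have hzero : ∀ i v, res (sp i (0 : A)) v = 0 := by
    intro i v
    have h1 := h.smul i 0 0 (gr i).zero_mem v
    rw [smul_zero, Rat.cast_zero, zero_mul] at h1
    exact h1
  have hfp : IsPrim α m (show (TM Ω Y) [⋀^Fin j × Fin 2]→ₗ[Ω] Ω from sp j a) := by
    intro v
    obtain ⟨c, hc, h1⟩ := h.mul_pow hR ha (m + 1)
    have h3 := h1 (fun k => v ((join j (m + 1)).symm k))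
    rw [mul_comm a, hprim, hzero] at h3
    have h5 : (fun k => (fun k => v ((join j (m + 1)).symm k)) (join j (m + 1) k)) = v := by
      funext k
      simp
    rw [h5] at h3
    have hc' : (c : Ω) ≠ 0 := by exact_mod_cast hc.ne'
    exact (mul_eq_zero.1 h3.symm).resolve_left hc'
  obtain ⟨c, hc, h1⟩ := hpos j m (by rw [← h.dim, hjm]) _ (h.cycle j a ha) hf0 hfp
  obtain ⟨c1, hc1, h2⟩ := h.sq_mul_pow hR ha m
  obtain ⟨c2, hc2, h3⟩ := h.pow hR (j + (j + m))
  have hn : j + (j + m) = n := by omega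
  have hc2' : (c2 : Ω) ≠ 0 := by exact_mod_cast hc2.ne'
  refine ⟨c1 * c / c2, div_pos (mul_pos hc1 hc) hc2, ?_⟩
  have hmem : a * (a * D ^ m) ∈ gr (j + (j + m)) :=
    hR.mul_mem ha (hR.mul_mem ha (hR.pow_mem m))
  have hmemD : D ^ (j + (j + m)) ∈ gr (j + (j + m)) := hR.pow_mem _
  rw [← hn, ← sub_eq_zero, sub_eq_add_neg, ← neg_smul]
  refine h.inj _ _ (Submodule.add_mem _ (Submodule.smul_mem _ _ hmem)
    (Submodule.smul_mem _ _ hmemD)) fun v => ?_
  rw [h.add _ _ (Submodule.smul_mem _ _ hmem) _ (Submodule.smul_mem _ _ hmemD),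
    h.smul _ _ _ hmem, h.smul _ _ _ hmemD]
  have e2 : (sp (j + (j + m)) (a * (a * D ^ m))).val v = _ := h2 v
  have e3 : (sp (j + (j + m)) (D ^ (j + (j + m)))).val v = _ := h3 v
  have e1 := h1 (fun k => v (join j (j + m) (Sum.map id (join j m) k)))
  rw [pow_split] at e1
  rw [e2, e3]
  have e4 : (((-1) ^ j : ℚ) : Ω) = (-1) ^ j := by push_cast; rfl
  rw [e4]
  have e5 : (-1 : Ω) ^ j * ((c1 : Ω) * altSum (times (res (sp j a)) (times (res (sp j a))
      (powE (castE Ω (riemannForm Y.X α)) m)))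
        (fun k => v (join j (j + m) (Sum.map id (join j m) k)))) =
      (c1 : Ω) * ((c : Ω) * altSum (powE (castE Ω (riemannForm Y.X α)) (j + (j + m))) v) := by
    rw [← e1]
    change _ = (c1 : Ω) * ((-1) ^ j * altSum (times (res (sp j a)) (times (res (sp j a))
      (powE (castE Ω (riemannForm Y.X α)) m)))
        (fun k => v (join j (j + m) (Sum.map id (join j m) k))))
    ring
  rw [e5]
  push_cast
  field_simp
  ring

/-- **The standard conjecture of Hodge type for the varieties that specialize to `Y`.** -/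
theorem hodgeType_of_specializes [IsAlgClosed Ω] (hC : Pool.Agent.Y137.HS.IsCycleSystemS Ω C)
    (hRos : IsRosatiPositive Ω C) (hT : AreTate Ω C)
    (hY : finrank ℚ Y.X.H1 ≤ 10 ∨ ∃ Z : RedAV p ν, Pool.Agent.Y137.SF.HasElementaryRelationsS Z ∧
      Pool.Agent.TH117.BL.IsPowersTimesSupersingular Z Y)
    (hα : IsPolar Y.X α) (h : Specializes C n gr D Y α sp) (hR : IsCycleRing n gr deg D) :
    IsOfHodgeType n gr deg D := by
  intro j hj z hz hp hz0
  obtain ⟨q, hq, h1⟩ := spec_positive h hR (fun _ _ hrm _ hz hz0 hprim =>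
    Pool.Agent.Y137.HS.hodgeStandard hC hRos hT hY hα hrm hz hz0 hprim)
    (show 2 * j + (n - 2 * j) = n by omega) hz hp hz0
  have h2 := congrArg deg h1
  rw [map_smul, map_smul, smul_eq_mul, smul_eq_mul, ← mul_assoc] at h2
  rw [h2]
  exact mul_pos hq hR.ample

/-- **The standard conjecture of Hodge type for abelian varieties with semistable degenerations.** -/
theorem hodgeType_of_degenerates [IsAlgClosed Ω] (hC : Pool.Agent.Y137.HS.IsCycleSystemS Ω C)
    (hRos : IsRosatiPositive Ω C) (hT : AreTate Ω C)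
    {t : ℕ} {c : Fin t → ℚ} {B : RedAV p ν} {β : B.X.H1}
    {cls : ∀ r : ℕ, A → FormT Ω t B (Fin r × Fin 2)}
    (hB : finrank ℚ B.X.H1 ≤ 8 ∨ ∃ Z : RedAV p ν, Pool.Agent.Y137.SF.HasElementaryRelationsS Z ∧
      IsPowersTimesSupersingular Z B)
    (hc : ∀ i, 0 < c i) (hβ : IsPolar B.X β) (h : Degenerates C n gr D t c B β cls)
    (hR : IsCycleRing n gr deg D) : IsOfHodgeType n gr deg D := by
  have hY : ∃ Z : RedAV p ν, Pool.Agent.Y137.SF.HasElementaryRelationsS Z ∧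
      IsPowersTimesSupersingular Z (prodR B (Et p ν t)) := by
    rcases hB with h1 | ⟨Z, h1, h2⟩
    · exact ⟨B, elementary_of_le B h1, powersTimes p ν (isPowers_self B) t⟩
    · exact ⟨Z, h1, powersTimes p ν h2 t⟩
  exact hodgeType_of_specializes hC hRos hT (Or.inr hY) (isPolar_polar t c hc B β hβ)
    (h.specializes hC.toIsCycleSystem) hR

end Pool.Agent.X268.DG
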