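import Pool.Agent.Y137.HD.Defs

/-!
# The standard conjecture of Hodge type for a ring of algebraic cycles
-/

set_option autoImplicit false

namespace Pool.Agent.X268.DG

universe u

/-- The standard conjecture of Hodge type for a variety of dimension `n`, with the ring `A` of algebraic
cycles with rational coefficients modulo homological equivalence, the subspaces `gr j = C^j(X)`, the
degree `deg` and the ample divisor `D`: for `2 j ≤ n` and every primitive class `z ≠ 0` of codimension
`j` the number `(-1)^j deg (z * z * D ^ (n - 2 j))` is positive. -/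
def IsOfHodgeType {A : Type u} [CommRing A] [Algebra ℚ A] (n : ℕ) (gr : ℕ → Submodule ℚ A)
    (deg : A →ₗ[ℚ] ℚ) (D : A) : Prop :=
  ∀ j, 2 * j ≤ n → ∀ z ∈ gr j, D ^ (n - 2 * j + 1) * z = 0 → z ≠ 0 →
    0 < (-1) ^ j * deg (z * z * D ^ (n - 2 * j))

end Pool.Agent.X268.DG
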