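import Pool.Agent.X268.DG.Sl
import Pool.Agent.H204R3.SP.Tate

/-!
# Rational forms of weight zero that are invariant under the monodromy operator
-/

set_option autoImplicit false

namespace Pool.Agent.X268.DG

open Module Pool.Agent.H204R3.CM Pool.Agent.H204R3.SP

section deriv

variable {κ V : Type} [Fintype κ] [DecidableEq κ] [AddCommGroup V] [Module ℚ V]

/-- The derivative of an invariance property. -/
theorem sum_update_eq_zero (φ : MultilinearMap ℚ (fun _ : κ => V) ℚ) (N : V →ₗ[ℚ] V) (v : κ → V)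
    (h : ∀ a : ℚ, a ≠ 0 → φ (fun k => v k + (a ^ 2) • N (v k)) = φ v) :
    ∑ k, φ (Function.update v k (N (v k))) = 0 := by
  classical
  let P : Polynomial ℚ := ∑ S : Finset κ,
    Polynomial.C (φ (S.piecewise (fun k => N (v k)) v)) * Polynomial.X ^ S.card
  have hP : ∀ c : ℚ, P.eval c = φ (fun k => v k + c • N (v k)) := by
    intro c
    have h1 : (fun k => v k + c • N (v k)) = (fun k => c • N (v k)) + v := by
      funext k
      rw [Pi.add_apply, add_comm]
    rw [h1, φ.map_add_univ]
    simp only [P, Polynomial.eval_finset_sum, Polynomial.eval_mul, Polynomial.eval_C,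
      Polynomial.eval_pow, Polynomial.eval_X]
    refine Finset.sum_congr rfl fun S _ => ?_
    have h2 := φ.map_piecewise_smul (fun _ => c) (S.piecewise (fun k => N (v k)) v) S
    rw [Finset.prod_const, smul_eq_mul] at h2
    rw [mul_comm, ← h2]
    congr 1
    funext k
    by_cases hk : k ∈ S
    · simp [hk]
    · simp [hk]
  have h0 : P = Polynomial.C (φ v) := by
    refine Polynomial.eq_of_infinite_eval_eq _ _ ?_
    have h1 : Set.Infinite (Set.range fun n : ℕ => ((n : ℚ) + 1) ^ 2) := by
      refine Set.infinite_range_of_injective ?_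
      intro m n hmn
      have h2 : ((m : ℚ) + 1) ^ 2 = ((n : ℚ) + 1) ^ 2 := hmn
      have h3 : (m : ℚ) + 1 = (n : ℚ) + 1 := by
        have hm : (0 : ℚ) ≤ (m : ℚ) + 1 := by positivity
        have hn : (0 : ℚ) ≤ (n : ℚ) + 1 := by positivity
        exact (pow_left_inj₀ hm hn two_ne_zero).1 h2
      exact_mod_cast add_right_cancel h3
    refine h1.mono ?_
    rintro _ ⟨n, rfl⟩
    change P.eval (((n : ℚ) + 1) ^ 2) = (Polynomial.C (φ v)).eval (((n : ℚ) + 1) ^ 2)
    rw [hP, Polynomial.eval_C]
    exact h _ (by positivity)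
  have h1 := congrArg (fun Q : Polynomial ℚ => Q.coeff 1) h0
  simp only [P, Polynomial.finset_sum_coeff, Polynomial.coeff_C_mul, Polynomial.coeff_X_pow,
    Polynomial.coeff_C] at h1
  rw [if_neg one_ne_zero] at h1
  have h2 : ∑ S : Finset κ, φ (S.piecewise (fun k => N (v k)) v) * (if 1 = S.card then 1 else 0) =
      ∑ S ∈ Finset.powersetCard 1 (Finset.univ : Finset κ),
        φ (S.piecewise (fun k => N (v k)) v) := by
    rw [Finset.powersetCard_eq_filter, Finset.sum_filter, Finset.powerset_univ]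
    refine Finset.sum_congr rfl fun S _ => ?_
    by_cases hS : S.card = 1
    · rw [if_pos hS, if_pos hS.symm, mul_one]
    · rw [if_neg hS, if_neg (Ne.symm hS), mul_zero]
  rw [h2, Finset.powersetCard_one, Finset.sum_map] at h1
  rw [← h1]
  refine Finset.sum_congr rfl fun k _ => ?_
  congr 1
  exact (Finset.piecewise_singleton (fun k => N (v k)) v k).symm

end deriv

section plane

variable {V : Type} [AddCommGroup V] [Module ℚ V] (e : Basis (Fin 2) ℚ V)

/-- The operator with the eigenvectors `e 0`, `e 1` and eigenvalues `a`, `a⁻¹`. -/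
noncomputable def dil (a : ℚ) : V →ₗ[ℚ] V := e.constr ℚ ![a • e 0, a⁻¹ • e 1]

/-- The unipotent operator. -/
noncomputable def uni : V →ₗ[ℚ] V := e.constr ℚ ![e 0, e 0 + e 1]

/-- The nilpotent operator. -/
noncomputable def nil : V →ₗ[ℚ] V := e.constr ℚ ![0, e 0]

theorem dil_zero (a : ℚ) : dil e a (e 0) = a • e 0 := by
  unfold dil
  rw [Basis.constr_basis]
  rfl

theorem dil_one (a : ℚ) : dil e a (e 1) = a⁻¹ • e 1 := by
  unfold dil
  rw [Basis.constr_basis]
  rfl

theorem uni_zero : uni e (e 0) = e 0 := by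
  unfold uni
  rw [Basis.constr_basis]
  rfl

theorem uni_one : uni e (e 1) = e 0 + e 1 := by
  unfold uni
  rw [Basis.constr_basis]
  rfl

theorem nil_zero : nil e (e 0) = 0 := by
  unfold nil
  rw [Basis.constr_basis]
  rfl

theorem nil_one : nil e (e 1) = e 0 := by
  unfold nil
  rw [Basis.constr_basis]
  rfl

theorem dil_uni (a : ℚ) (ha : a ≠ 0) (v : V) :
    dil e a (uni e (dil e a⁻¹ v)) = v + (a ^ 2) • nil e v := by
  have h : (dil e a) ∘ₗ (uni e) ∘ₗ (dil e a⁻¹) = LinearMap.id + (a ^ 2) • nil e := by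
    refine e.ext fun i => ?_
    fin_cases i
    · change dil e a (uni e (dil e a⁻¹ (e 0))) = e 0 + (a ^ 2) • nil e (e 0)
      rw [dil_zero, map_smul, uni_zero, map_smul, dil_zero, nil_zero, smul_zero, add_zero,
        smul_smul, inv_mul_cancel₀ ha, one_smul]
    · change dil e a (uni e (dil e a⁻¹ (e 1))) = e 1 + (a ^ 2) • nil e (e 1)
      rw [dil_one, map_smul, uni_one, map_smul, map_add, dil_zero, dil_one, nil_one, inv_inv,
        smul_add, smul_smul, smul_smul, mul_inv_cancel₀ ha, one_smul, add_comm, sq]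
  exact LinearMap.congr_fun h v

variable {κ : Type} [Fintype κ] [DecidableEq κ]

/-- Invariance of a multilinear form under the torus and the unipotent operator. -/
structure IsInv (φ : MultilinearMap ℚ (fun _ : κ => V) ℚ) : Prop where
  dil : ∀ a : ℚ, a ≠ 0 → ∀ v, φ (fun k => dil e a (v k)) = φ v
  uni : ∀ v, φ (fun k => uni e (v k)) = φ v

variable {e}

theorem IsInv.up {φ : MultilinearMap ℚ (fun _ : κ => V) ℚ} (h : IsInv e φ) (I : κ → Fin 2) :
    up (fun I => φ (fun k => e (I k))) I = 0 := by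
  have h1 := sum_update_eq_zero φ (nil e) (fun k => e (I k)) fun a ha => by
    have h2 : (fun k => e (I k) + (a ^ 2) • nil e (e (I k))) =
        fun k => Pool.Agent.X268.DG.dil e a
          (Pool.Agent.X268.DG.uni e (Pool.Agent.X268.DG.dil e a⁻¹ (e (I k)))) := by
      funext k
      rw [dil_uni e a ha]
    rw [h2, h.dil a ha, h.uni, h.dil _ (inv_ne_zero ha)]
  unfold Pool.Agent.X268.DG.up
  refine Eq.trans (Finset.sum_congr rfl fun k _ => ?_) h1
  rcases Fin.exists_fin_two.1 ⟨I k, rfl⟩ with h4 | h4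
  · rw [if_neg (by rw [h4]; exact zero_ne_one), h4, nil_zero]
    exact (φ.map_coord_zero k (Function.update_self k 0 fun k => e (I k))).symm
  · rw [if_pos h4, h4, nil_one]
    change φ (fun l => e (Function.update I k 0 l)) = _
    congr 1
    funext l
    by_cases hl : l = k
    · subst hl
      rw [Function.update_self, Function.update_self]
    · rw [Function.update_of_ne hl, Function.update_of_ne hl]

theorem IsInv.bal {φ : MultilinearMap ℚ (fun _ : κ => V) ℚ} (h : IsInv e φ) (I : κ → Fin 2)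
    (hI : φ (fun k => e (I k)) ≠ 0) : (Finset.univ.filter fun k => I k = 1).card =
      (Finset.univ.filter fun k => I k = 0).card := by
  have h1 := h.dil 2 two_ne_zero fun k => e (I k)
  have h2 : (fun k => Pool.Agent.X268.DG.dil e 2 (e (I k))) =
      fun k => (if I k = 0 then (2 : ℚ) else 2⁻¹) • e (I k) := by
    funext k
    rcases Fin.exists_fin_two.1 ⟨I k, rfl⟩ with h4 | h4
    · rw [if_pos h4, h4, dil_zero]
    · rw [if_neg (by rw [h4]; exact one_ne_zero), h4, dil_one]
  rw [h2, φ.map_smul_univ, smul_eq_mul] at h1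
  have h3 : (∏ k, if I k = 0 then (2 : ℚ) else 2⁻¹) = 1 := by
    have h4 := mul_right_cancel₀ hI (h1.trans (one_mul _).symm)
    exact h4
  rw [Finset.prod_ite, Finset.prod_const, Finset.prod_const] at h3
  have h4 : (Finset.univ.filter fun k => ¬ I k = 0) = Finset.univ.filter fun k => I k = 1 := by
    ext k
    simp only [Finset.mem_filter, Finset.mem_univ, true_and]
    constructor
    · intro h
      rcases Fin.exists_fin_two.1 ⟨I k, rfl⟩ with h5 | h5
      · exact absurd h5 h
      · exact h5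
    · intro h
      rw [h]
      exact one_ne_zero
  rw [h4, inv_pow, ← div_eq_mul_inv, div_eq_one_iff_eq (pow_ne_zero _ two_ne_zero)] at h3
  exact (pow_right_injective₀ (by norm_num) (by norm_num) h3).symm

/-- The other basis vector. -/
def oth : Fin 2 → Fin 2 := ![1, 0]

/-- The sign. -/
def sgn : Fin 2 → ℚ := ![1, -1]

theorem IsInv.mem_InvF {φ : MultilinearMap ℚ (fun _ : κ => V) ℚ} (h : IsInv e φ) :
    (fun I : κ → Fin 2 => φ (fun k => e (I k))) ∈ InvF oth sgn κ := by
  set F : (κ → Fin 2) → ℚ := fun I => φ (fun k => e (I k)) with hF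
  have hup : ∀ I, Pool.Agent.X268.DG.up F I = 0 := h.up
  have hbal : ∀ I, F I ≠ 0 → _ := h.bal
  have hdn : ∀ I, dn F I = 0 := dn_eq_zero F hbal hup
  have hJ0 : ∀ y : Fin 2, JJ oth sgn 0 y = if y = 1 then 1 else 0 := by
    intro y
    fin_cases y <;> simp [JJ, oth, sgn]
  have hJ1 : ∀ y : Fin 2, JJ oth sgn 1 y = if y = 0 then -1 else 0 := by
    intro y
    fin_cases y <;> simp [JJ, oth, sgn]
  have e0 : ∀ I : κ → Fin 2, ∑ k, JJ oth sgn 0 (I k) * F (Function.update I k 0) = 0 := by
    intro I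
    rw [← hup I]
    unfold Pool.Agent.X268.DG.up
    refine Finset.sum_congr rfl fun k _ => ?_
    rw [hJ0, ite_mul, one_mul, zero_mul]
  have e1 : ∀ I : κ → Fin 2, ∑ k, JJ oth sgn 1 (I k) * F (Function.update I k 1) = 0 := by
    intro I
    have h1 := hdn I
    unfold dn at h1
    rw [← neg_eq_zero, ← Finset.sum_neg_distrib] at h1
    rw [← h1]
    refine Finset.sum_congr rfl fun k _ => ?_
    rw [hJ1, ite_mul, neg_one_mul, zero_mul]
    split_ifs <;> simp
  have e2 : ∀ I : κ → Fin 2, ∑ k, (JJ oth sgn 0 (I k) * F (Function.update I k 1) +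
      JJ oth sgn 1 (I k) * F (Function.update I k 0)) = 0 := by
    intro I
    have h1 : ∀ k, (JJ oth sgn 0 (I k) * F (Function.update I k 1) +
      JJ oth sgn 1 (I k) * F (Function.update I k 0)) =
        (if I k = 1 then F I else 0) - (if I k = 0 then F I else 0) := by
      intro k
      rw [hJ0, hJ1]
      by_cases hk : I k = 1
      · have hk0 : ¬ I k = 0 := by rw [hk]; exact one_ne_zero
        rw [if_pos hk, if_neg hk0, if_pos hk, if_neg hk0, one_mul, zero_mul, ← hk,
          Function.update_eq_self]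
        ring
      · have hk0 : I k = 0 := by
          rcases Fin.exists_fin_two.1 ⟨I k, rfl⟩ with h5 | h5
          · exact h5
          · exact absurd h5 hk
        rw [if_neg hk, if_pos hk0, if_neg hk, if_pos hk0, zero_mul, ← hk0,
          Function.update_eq_self]
        ring
    rw [Finset.sum_congr rfl fun k _ => h1 k, Finset.sum_sub_distrib, ← Finset.sum_filter,
      ← Finset.sum_filter, Finset.sum_const, Finset.sum_const]
    by_cases hI : F I = 0
    · rw [hI, smul_zero, smul_zero, sub_zero]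
    · rw [hbal I hI, sub_self]
  intro b c I
  rcases Fin.exists_fin_two.1 ⟨b, rfl⟩ with hb | hb <;>
    rcases Fin.exists_fin_two.1 ⟨c, rfl⟩ with hc | hc <;> rw [hb, hc]
  · rw [Finset.sum_add_distrib, e0, add_zero]
  · exact e2 I
  · rw [← e2 I]
    exact Finset.sum_congr rfl fun k _ => add_comm _ _
  · rw [Finset.sum_add_distrib, e1, add_zero]

variable {ω : V →ₗ[ℚ] V →ₗ[ℚ] ℚ} (hω : ∀ x y, ω (e x) (e y) = JJ oth sgn x y)

include hω in
theorem IsInv.mem_mm {m : ℕ} {φ : MultilinearMap ℚ (fun _ : Fin m × Fin 2 => V) ℚ}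
    (h : IsInv e φ) : φ ∈ Submodule.span ℚ (Set.range (mm ω (m := m))) := by
  let coef : MultilinearMap ℚ (fun _ : Fin m × Fin 2 => V) ℚ →ₗ[ℚ] ((Fin m × Fin 2 → Fin 2) → ℚ) :=
    { toFun := fun φ I => φ (fun k => e (I k))
      map_add' := fun _ _ => rfl
      map_smul' := fun _ _ => rfl }
  have hinj : Function.Injective coef := fun φ φ' h =>
    Basis.ext_multilinear (fun _ => e) fun I => congrFun h I
  have h1 : coef φ ∈ InvF oth sgn (Fin m × Fin 2) := h.mem_InvF
  have h2 := fft (inv := oth) (jj := sgn) (by intro x; fin_cases x <;> rfl)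
    (by intro x; fin_cases x <;> simp [oth, sgn]) (by intro x; fin_cases x <;> simp [sgn]) m
    (Fin m × Fin 2) (by simp [mul_comm]) h1
  have h3 : MatF oth sgn (Fin m × Fin 2) m ≤
      (Submodule.span ℚ (Set.range (mm ω (m := m)))).map coef := by
    unfold MatF
    rw [Submodule.span_le]
    rintro _ ⟨σ, rfl⟩
    refine ⟨mm ω σ, Submodule.subset_span ⟨σ, rfl⟩, ?_⟩
    funext I
    change mm ω σ (fun k => e (I k)) = _
    rw [mm_apply]
    exact Finset.prod_congr rfl fun s _ => hω _ _
  obtain ⟨φ', hφ', hφφ⟩ := h3 h2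
  rw [← hinj hφφ]
  exact hφ'

/-- The elementary bilinear forms. -/
def BB (ω : V →ₗ[ℚ] V →ₗ[ℚ] ℚ) (t : ℕ) : Set (MultilinearMap ℚ (fun _ : Fin 2 => Fin t → V) ℚ) :=
  {B | ∃ a b : Fin t, B = bil2 (ω.compl₁₂ (LinearMap.proj a) (LinearMap.proj b))}

include hω in
/-- Alternating forms on `V ^ t`, of weight zero and invariant under the unipotent operator, are
generated by elementary forms of degree two. -/
theorem alt_mem {t m : ℕ} (f : (Fin t → V) [⋀^Fin m × Fin 2]→ₗ[ℚ] ℚ)
    (hd : ∀ a : ℚ, a ≠ 0 → ∀ v, f (fun k i => Pool.Agent.X268.DG.dil e a (v k i)) = f v)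
    (hu : ∀ v, f (fun k i => Pool.Agent.X268.DG.uni e (v k i)) = f v) :
    f ∈ Submodule.span ℚ {g : (Fin t → V) [⋀^Fin m × Fin 2]→ₗ[ℚ] ℚ |
      ∃ B : Fin m → MultilinearMap ℚ (fun _ : Fin 2 => Fin t → V) ℚ, (∀ s, B s ∈ BB ω t) ∧
        ∀ v, g v = ∑ σ : Equiv.Perm (Fin m × Fin 2), ((Equiv.Perm.sign σ : ℤ) : ℚ) *
          ∏ s, (MultilinearMap.alternatization (B s)) ![v (σ (s, 0)), v (σ (s, 1))]} := by
  classical
  refine alt_span (BB ω t) f ?_
  let fc : (Fin m × Fin 2 → Fin t) → MultilinearMap ℚ (fun _ : Fin m × Fin 2 => V) ℚ := fun c =>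
    f.toMultilinearMap.compLinearMap (fun l => LinearMap.single ℚ (fun _ : Fin t => V) (c l))
  have hsingle : ∀ (T : V →ₗ[ℚ] V) (c : Fin m × Fin 2 → Fin t) (v : Fin m × Fin 2 → V),
      (fun (l : Fin m × Fin 2) (i : Fin t) =>
        T ((Pi.single (c l) (v l) : Fin t → V) i)) = fun l => Pi.single (c l) (T (v l)) := by
    intro T c v
    funext l i
    by_cases hi : i = c l
    · subst hi
      rw [Pi.single_eq_same, Pi.single_eq_same]
    · rw [Pi.single_eq_of_ne hi, Pi.single_eq_of_ne hi, map_zero]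
  have hfc : ∀ c, IsInv e (fc c) := by
    intro c
    refine ⟨fun a ha v => ?_, fun v => ?_⟩
    · have h1 := hd a ha (fun l => Pi.single (c l) (v l))
      rw [hsingle] at h1
      exact h1
    · have h1 := hu (fun l => Pi.single (c l) (v l))
      rw [hsingle] at h1
      exact h1
  have hsum : (fun v => f v) = ∑ c : Fin m × Fin 2 → Fin t,
      (fun v : Fin m × Fin 2 → Fin t → V => fc c (fun l => v l (c l))) := by
    funext v
    rw [Finset.sum_apply]
    have h1 : v = fun l => ∑ i, Pi.single i (v l i) := by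
      funext l
      exact (Finset.univ_sum_single (v l)).symm
    conv_lhs => rw [h1]
    exact f.toMultilinearMap.map_sum (fun l i => Pi.single i (v l i))
  rw [hsum]
  refine Submodule.sum_mem _ fun c _ => ?_
  have h2 := (hfc c).mem_mm hω
  have h3 : ∀ φ ∈ Submodule.span ℚ (Set.range (mm ω (m := m))),
      (fun v : Fin m × Fin 2 → Fin t → V => φ (fun l => v l (c l))) ∈
      Submodule.span ℚ {g : (Fin m × Fin 2 → Fin t → V) → ℚ |
    ∃ (e : Equiv.Perm (Fin m × Fin 2))
      (B : Fin m → MultilinearMap ℚ (fun _ : Fin 2 => Fin t → V) ℚ),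
      (∀ s, B s ∈ BB ω t) ∧ g = fun v => ∏ s, B s (fun ε => v (e (s, ε)))} := by
    intro φ hφ
    induction hφ using Submodule.span_induction with
    | mem φ hφ =>
      obtain ⟨σ, rfl⟩ := hφ
      refine Submodule.subset_span ⟨σ, fun s => bil2 (ω.compl₁₂
        (LinearMap.proj (c (σ (s, 0)))) (LinearMap.proj (c (σ (s, 1))))),
        fun s => ⟨_, _, rfl⟩, ?_⟩
      funext v
      rw [mm_apply]
      rfl
    | zero => exact Submodule.zero_mem _
    | add a b _ _ ha hb => exact Submodule.add_mem _ ha hb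
    | smul c a _ ha => exact Submodule.smul_mem _ c ha
  exact h3 _ h2

end plane

end Pool.Agent.X268.DG
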