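import Mathlib

/-!
# Coefficient functions killed by the raising operator
-/

set_option autoImplicit false

namespace Pool.Agent.X268.DG

open Finset

section

variable {κ : Type} [Fintype κ] [DecidableEq κ]

/-- Replace one value `1` by `0`. -/
def up (F : (κ → Fin 2) → ℚ) (I : κ → Fin 2) : ℚ :=
  ∑ k, if I k = 1 then F (Function.update I k 0) else 0

/-- Replace one value `0` by `1`. -/
def dn (F : (κ → Fin 2) → ℚ) (I : κ → Fin 2) : ℚ :=
  ∑ k, if I k = 0 then F (Function.update I k 1) else 0

/-- Summation by parts. -/
theorem sum_dn_mul (F G : (κ → Fin 2) → ℚ) :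
    ∑ I, G I * dn F I = ∑ I, F I * up G I := by
  have h1 : ∀ I, G I * dn F I = ∑ k, if I k = 0 then G I * F (Function.update I k 1) else 0 := by
    intro I
    unfold dn
    rw [Finset.mul_sum]
    refine Finset.sum_congr rfl fun k _ => ?_
    split_ifs
    · rfl
    · rw [mul_zero]
  have h2 : ∀ I, F I * up G I = ∑ k, if I k = 1 then F I * G (Function.update I k 0) else 0 := by
    intro I
    unfold up
    rw [Finset.mul_sum]
    refine Finset.sum_congr rfl fun k _ => ?_
    split_ifs
    · rfl
    · rw [mul_zero]
  rw [Finset.sum_congr rfl fun I _ => h1 I, Finset.sum_congr rfl fun I _ => h2 I,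
    Finset.sum_comm, Finset.sum_comm (s := (Finset.univ : Finset (κ → Fin 2)))]
  refine Finset.sum_congr rfl fun k _ => ?_
  rw [← Finset.sum_filter, ← Finset.sum_filter]
  refine Finset.sum_bij' (fun I _ => Function.update I k 1) (fun I _ => Function.update I k 0)
    ?_ ?_ ?_ ?_ ?_
  · intro I _
    simp
  · intro I _
    simp
  · intro I hI
    rw [Finset.mem_filter] at hI
    rw [Function.update_idem, ← hI.2, Function.update_eq_self]
  · intro I hI
    rw [Finset.mem_filter] at hI
    rw [Function.update_idem, ← hI.2, Function.update_eq_self]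
  · intro I hI
    rw [Finset.mem_filter] at hI
    rw [Function.update_idem, mul_comm]
    congr 2
    rw [← hI.2, Function.update_eq_self]

/-- The commutation relation. -/
theorem up_dn (F : (κ → Fin 2) → ℚ) (I : κ → Fin 2) :
    up (dn F) I - dn (up F) I =
      (((univ.filter fun k => I k = 1).card : ℚ) - ((univ.filter fun k => I k = 0).card : ℚ)) *
        F I := by
  have h1 : up (dn F) I = ∑ k, ∑ l, if I k = 1 ∧ (Function.update I k 0) l = 0 then
      F (Function.update (Function.update I k 0) l 1) else 0 := by
    unfold up
    refine Finset.sum_congr rfl fun k _ => ?_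
    by_cases hk : I k = 1
    · rw [if_pos hk]
      unfold dn
      refine Finset.sum_congr rfl fun l _ => ?_
      simp [hk]
    · rw [if_neg hk]
      refine (Finset.sum_eq_zero fun l _ => ?_).symm
      rw [if_neg fun h => hk h.1]
  have h2 : dn (up F) I = ∑ k, ∑ l, if I l = 0 ∧ (Function.update I l 1) k = 1 then
      F (Function.update (Function.update I l 1) k 0) else 0 := by
    rw [Finset.sum_comm]
    unfold dn
    refine Finset.sum_congr rfl fun k _ => ?_
    by_cases hk : I k = 0
    · rw [if_pos hk]
      unfold up
      refine Finset.sum_congr rfl fun l _ => ?_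
      simp [hk]
    · rw [if_neg hk]
      refine (Finset.sum_eq_zero fun l _ => ?_).symm
      rw [if_neg fun h => hk h.1]
  have h3 : ∀ k l, ((if I k = 1 ∧ (Function.update I k 0) l = 0 then
      F (Function.update (Function.update I k 0) l 1) else 0) -
      (if I l = 0 ∧ (Function.update I l 1) k = 1 then
      F (Function.update (Function.update I l 1) k 0) else 0)) =
      if l = k then ((if I k = 1 then F I else 0) - (if I k = 0 then F I else 0)) else 0 := by
    intro k l
    by_cases hlk : l = k
    · subst hlk
      rw [if_pos rfl, Function.update_self, Function.update_self, Function.update_idem,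
        Function.update_idem]
      congr 1
      · by_cases h : I l = 1
        · rw [if_pos ⟨h, rfl⟩, if_pos h, ← h, Function.update_eq_self]
        · rw [if_neg fun h' => h h'.1, if_neg h]
      · by_cases h : I l = 0
        · rw [if_pos ⟨h, rfl⟩, if_pos h, ← h, Function.update_eq_self]
        · rw [if_neg fun h' => h h'.1, if_neg h]
    · rw [if_neg hlk, Function.update_of_ne hlk, Function.update_of_ne (Ne.symm hlk),
        Function.update_comm (Ne.symm hlk)]
      by_cases h : I k = 1 ∧ I l = 0
      · rw [if_pos h, if_pos ⟨h.2, h.1⟩, sub_self]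
      · rw [if_neg h, if_neg fun h' => h ⟨h'.2, h'.1⟩, sub_self]
  rw [h1, h2, ← Finset.sum_sub_distrib]
  have h4 : ∀ k, ((∑ l, if I k = 1 ∧ (Function.update I k 0) l = 0 then
      F (Function.update (Function.update I k 0) l 1) else 0) -
      ∑ l, if I l = 0 ∧ (Function.update I l 1) k = 1 then
      F (Function.update (Function.update I l 1) k 0) else 0) =
      (if I k = 1 then F I else 0) - (if I k = 0 then F I else 0) := by
    intro k
    rw [← Finset.sum_sub_distrib, Finset.sum_congr rfl fun l _ => h3 k l,
      Finset.sum_ite_eq' Finset.univ k, if_pos (Finset.mem_univ _)]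
  rw [Finset.sum_congr rfl fun k _ => h4 k, Finset.sum_sub_distrib, ← Finset.sum_filter,
    ← Finset.sum_filter, Finset.sum_const, Finset.sum_const, nsmul_eq_mul, nsmul_eq_mul, sub_mul]

/-- A balanced function killed by `up` is killed by `dn`. -/
theorem dn_eq_zero (F : (κ → Fin 2) → ℚ)
    (hbal : ∀ I, F I ≠ 0 → (univ.filter fun k => I k = 1).card =
      (univ.filter fun k => I k = 0).card) (hup : ∀ I, up F I = 0) (I : κ → Fin 2) :
    dn F I = 0 := by
  have h0 : ∀ J, dn (up F) J = 0 := by
    intro J
    unfold dn
    refine Finset.sum_eq_zero fun k _ => ?_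
    rw [hup]
    exact ite_self _
  have h1 : ∀ J, up (dn F) J = 0 := by
    intro J
    have h2 := up_dn F J
    rw [h0, sub_zero] at h2
    rw [h2]
    by_cases hJ : F J = 0
    · rw [hJ, mul_zero]
    · rw [hbal J hJ, sub_self, zero_mul]
  have h2 : ∑ J, dn F J * dn F J = 0 := by
    rw [sum_dn_mul]
    exact Finset.sum_eq_zero fun J _ => by rw [h1, mul_zero]
  have h3 := (Finset.sum_eq_zero_iff_of_nonneg fun J _ => mul_self_nonneg (dn F J)).1 h2 I
    (Finset.mem_univ I)
  exact mul_self_eq_zero.1 h3

end

end Pool.Agent.X268.DG
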