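import Pool.Agent.X268.DG.Tor
import Pool.Agent.X268.DG.Defs

/-!
# Forms on the Tate module of a degenerating abelian variety, and cycles on `B × E ^ t`
-/

set_option autoImplicit false

namespace Pool.Agent.X268.DG

open NumberField Module Equiv Pool.Agent.H204R3.CM Pool.Agent.H204R3.SP Pool.Agent.W547.KB
  Pool.Agent.W547.LD Pool.Agent.W547.HR Pool.Agent.W495.TA Pool.Agent.W495.TC
  Pool.Agent.TH117.PO Pool.Agent.TH117.BL Pool.Agent.W976.TA Pool.Agent.Y137.HD
open scoped TensorProduct

noncomputable section

/-! ### Linear algebra -/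

/-- An alternating map to a vector space is a finite combination of vectors with coefficients that
are alternating forms. -/
theorem exists_decomp {κ W M : Type} [Fintype κ] [DecidableEq κ] [AddCommGroup W] [Module ℚ W]
    [Module.Finite ℚ W] [AddCommGroup M] [Module ℚ M] (Φ : W [⋀^κ]→ₗ[ℚ] M) :
    ∃ (n : ℕ) (l : Fin n → (M →ₗ[ℚ] ℚ)) (g : Fin n → M),
      (∀ i, g i ∈ Submodule.span ℚ (Set.range fun z => Φ z)) ∧
        ∀ z, Φ z = ∑ i, l i (Φ z) • g i := by
  classical
  let c := Module.finBasis ℚ W
  let N : Submodule ℚ M := Submodule.span ℚ (Set.range fun I : κ → Fin (finrank ℚ W) =>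
    Φ fun k => c (I k))
  have hfin : Module.Finite ℚ N := Module.Finite.span_of_finite ℚ (Set.finite_range _)
  have hmem : ∀ z, Φ z ∈ N := by
    intro z
    have h1 : z = fun k => ∑ j, c.repr (z k) j • c j := by
      funext k
      exact (c.sum_repr (z k)).symm
    have h2 : Φ z = ∑ I : κ → Fin (finrank ℚ W), Φ fun k => c.repr (z k) (I k) • c (I k) := by
      conv_lhs => rw [h1]
      exact Φ.toMultilinearMap.map_sum fun k j => c.repr (z k) j • c j
    rw [h2]
    refine Submodule.sum_mem _ fun I _ => ?_
    have h3 : (Φ fun k => c.repr (z k) (I k) • c (I k)) =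
        (∏ k, c.repr (z k) (I k)) • Φ fun k => c (I k) :=
      Φ.toMultilinearMap.map_smul_univ (fun k => c.repr (z k) (I k)) fun k => c (I k)
    rw [h3]
    exact Submodule.smul_mem _ _ (Submodule.subset_span ⟨I, rfl⟩)
  let b := Module.finBasis ℚ N
  choose l hl using fun i => LinearMap.exists_extend (b.coord i)
  refine ⟨finrank ℚ N, l, fun i => (b i : M), fun i => ?_, fun z => ?_⟩
  · refine Submodule.span_mono ?_ (b i).2
    rintro _ ⟨I, rfl⟩
    exact ⟨fun k => c (I k), rfl⟩
  · have h1 : ∀ i, l i (Φ z) = b.coord i ⟨Φ z, hmem z⟩ := fun i => by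
      rw [← hl i]
      rfl
    have h2 := congrArg (fun x : N => (x : M)) (b.sum_repr ⟨Φ z, hmem z⟩)
    simp only [Submodule.coe_sum, Submodule.coe_smul] at h2
    rw [← h2]
    refine Finset.sum_congr rfl fun i _ => ?_
    congr 1
    rw [h2, h1]
    rfl

variable {p : ℕ} [hp : Fact p.Prime] {ν : PadicAlgCl p ≃+* ℂ}

/-! ### Slices -/

section slice

variable {Ω : Type} [Field Ω] [CharZero Ω] {t : ℕ} {B : RedAV p ν} {κ κ₁ κ₂ : Type}

/-- The vector with the toric component `z`. -/
def torK (Ω : Type) [Field Ω] [CharZero Ω] (B : RedAV p ν) {t : ℕ} (z : Fin t → Kf p) : VM Ω t B :=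
  tor Ω B (fun i => (bK p).coord 0 (z i)) (fun i => (bK p).coord 1 (z i))

theorem torK_add (z w : Fin t → Kf p) : torK Ω B (z + w) = torK Ω B z + torK Ω B w := by
  unfold torK tor
  refine Prod.ext ?_ (Prod.ext ?_ ?_)
  · funext i
    simp
  · funext i
    simp
  · simp

theorem torK_smul (a : ℚ) (z : Fin t → Kf p) : torK Ω B (a • z) = (a : Ω) • torK Ω B z := by
  unfold torK tor
  refine Prod.ext ?_ (Prod.ext ?_ ?_)
  · funext i
    simp
  · funext i
    simp
  · simp

/-- Insert vectors for the variables in `κ₁`. -/
def slice (f : (VM Ω t B) [⋀^κ]→ₗ[Ω] Ω) (e : κ₁ ⊕ κ₂ ≃ κ) (z : κ₁ → Fin t → Kf p) :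
    (TM Ω B) [⋀^κ₂]→ₗ[Ω] Ω where
  toFun b := f fun k => Sum.elim (fun l => torK Ω B (z l)) (fun l => abe t (b l)) (e.symm k)
  map_update_add' := by
    classical
    intro hd v k x y
    have h1 : ∀ w : TM Ω B, (fun k' => Sum.elim (fun l => torK Ω B (z l))
        (fun l => abe t (Function.update v k w l)) (e.symm k')) =
        Function.update (fun k' => Sum.elim (fun l => torK Ω B (z l))
          (fun l => abe t (v l)) (e.symm k')) (e (Sum.inr k)) (abe t w) := by
      intro w
      funext s
      obtain ⟨s, rfl⟩ := e.surjective s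
      rw [e.symm_apply_apply]
      rcases s with s | s
      · rw [Function.update_of_ne (by simp)]
        simp
      · by_cases h : s = k
        · subst h; simp
        · rw [Function.update_of_ne (by simpa using h)]
          simp [h]
    have h2 : ∀ a b : TM Ω B, (abe t (a + b) : VM Ω t B) = abe t a + abe t b := by
      intro a b
      unfold abe
      simp
    rw [h1, h1, h1, h2, AlternatingMap.map_update_add]
  map_update_smul' := by
    classical
    intro hd v k c x
    have h1 : ∀ w : TM Ω B, (fun k' => Sum.elim (fun l => torK Ω B (z l))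
        (fun l => abe t (Function.update v k w l)) (e.symm k')) =
        Function.update (fun k' => Sum.elim (fun l => torK Ω B (z l))
          (fun l => abe t (v l)) (e.symm k')) (e (Sum.inr k)) (abe t w) := by
      intro w
      funext s
      obtain ⟨s, rfl⟩ := e.surjective s
      rw [e.symm_apply_apply]
      rcases s with s | s
      · rw [Function.update_of_ne (by simp)]
        simp
      · by_cases h : s = k
        · subst h; simp
        · rw [Function.update_of_ne (by simpa using h)]
          simp [h]
    have h2 : (abe t (c • x) : VM Ω t B) = c • abe t x := by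
      unfold abe
      simp
    rw [h1, h1, h2, AlternatingMap.map_update_smul]
  map_eq_zero_of_eq' v i k hv hik := by
    refine f.map_eq_zero_of_eq _ (i := e (Sum.inr i)) (j := e (Sum.inr k)) ?_ (by simpa using hik)
    simp [hv]

theorem slice_apply (f : (VM Ω t B) [⋀^κ]→ₗ[Ω] Ω) (e : κ₁ ⊕ κ₂ ≃ κ) (z : κ₁ → Fin t → Kf p)
    (b : κ₂ → TM Ω B) : slice f e z b =
      f fun k => Sum.elim (fun l => torK Ω B (z l)) (fun l => abe t (b l)) (e.symm k) := rfl

/-- The slices, as an alternating map of the toric variables. -/
def sliceMap (f : (VM Ω t B) [⋀^κ]→ₗ[Ω] Ω) (e : κ₁ ⊕ κ₂ ≃ κ) :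
    (Fin t → Kf p) [⋀^κ₁]→ₗ[ℚ] ((TM Ω B) [⋀^κ₂]→ₗ[Ω] Ω) where
  toFun z := slice f e z
  map_update_add' := by
    classical
    intro hd v k x y
    refine AlternatingMap.ext fun b => ?_
    rw [AlternatingMap.add_apply, slice_apply, slice_apply, slice_apply]
    have h1 : ∀ w : Fin t → Kf p, (fun k' => Sum.elim
        (fun l => torK Ω B (Function.update v k w l)) (fun l => abe t (b l)) (e.symm k')) =
        Function.update (fun k' => Sum.elim (fun l => torK Ω B (v l))
          (fun l => abe t (b l)) (e.symm k')) (e (Sum.inl k)) (torK Ω B w) := by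
      intro w
      funext s
      obtain ⟨s, rfl⟩ := e.surjective s
      rw [e.symm_apply_apply]
      rcases s with s | s
      · by_cases h : s = k
        · subst h; simp
        · rw [Function.update_of_ne (by simpa using h)]
          simp [h]
      · rw [Function.update_of_ne (by simp)]
        simp
    rw [h1, h1, h1, torK_add, AlternatingMap.map_update_add]
  map_update_smul' := by
    classical
    intro hd v k c x
    refine AlternatingMap.ext fun b => ?_
    rw [AlternatingMap.smul_apply, slice_apply, slice_apply]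
    have h1 : ∀ w : Fin t → Kf p, (fun k' => Sum.elim
        (fun l => torK Ω B (Function.update v k w l)) (fun l => abe t (b l)) (e.symm k')) =
        Function.update (fun k' => Sum.elim (fun l => torK Ω B (v l))
          (fun l => abe t (b l)) (e.symm k')) (e (Sum.inl k)) (torK Ω B w) := by
      intro w
      funext s
      obtain ⟨s, rfl⟩ := e.surjective s
      rw [e.symm_apply_apply]
      rcases s with s | s
      · by_cases h : s = k
        · subst h; simp
        · rw [Function.update_of_ne (by simpa using h)]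
          simp [h]
      · rw [Function.update_of_ne (by simp)]
        simp
    rw [h1, h1, torK_smul, AlternatingMap.map_update_smul, smul_eq_mul, Rat.smul_def]
  map_eq_zero_of_eq' v i k hv hik := by
    refine AlternatingMap.ext fun b => ?_
    rw [slice_apply]
    refine f.map_eq_zero_of_eq _ (i := e (Sum.inl i)) (j := e (Sum.inl k)) ?_ (by simpa using hik)
    simp [hv]

theorem sliceMap_apply (f : (VM Ω t B) [⋀^κ]→ₗ[Ω] Ω) (e : κ₁ ⊕ κ₂ ≃ κ) (z : κ₁ → Fin t → Kf p)
    (b : κ₂ → TM Ω B) : sliceMap f e z b =
      f fun k => Sum.elim (fun l => torK Ω B (z l)) (fun l => abe t (b l)) (e.symm k) := rfl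

end slice

end

end Pool.Agent.X268.DG
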