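import Pool.Agent.X268.DG.Split

/-!
# Classes on the Tate module of a degenerating abelian variety are classes of cycles on `B × E ^ t`
-/

set_option autoImplicit false

namespace Pool.Agent.X268.DG

open NumberField Module Equiv Pool.Agent.H204R3.CM Pool.Agent.H204R3.SP Pool.Agent.W547.KB
  Pool.Agent.W547.LD Pool.Agent.W547.HR Pool.Agent.W495.TA Pool.Agent.W495.TC
  Pool.Agent.TH117.PO Pool.Agent.TH117.BL Pool.Agent.W976.TA Pool.Agent.Y137.HD
open scoped TensorProduct

noncomputable section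

variable {p : ℕ} [hp : Fact p.Prime] {ν : PadicAlgCl p ≃+* ℂ}

/-! ### The projections -/

/-- The projection of the tangent space. -/
def prT (X Y : CMAV) : (X.prod Y).Tan →ₗ[ℂ] X.Tan where
  toFun u := fun i => u (Sum.inl i)
  map_add' _ _ := rfl
  map_smul' _ _ := rfl

/-- The projection of the tangent space. -/
def prT' (X Y : CMAV) : (X.prod Y).Tan →ₗ[ℂ] Y.Tan where
  toFun u := fun i => u (Sum.inr i)
  map_add' _ _ := rfl
  map_smul' _ _ := rfl

theorem isHom_pQ (Y E : RedAV p ν) : IsHom (prodR Y E).X Y.X (pQ Y E) :=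
  ⟨prT Y.X E.X, fun _ => rfl⟩

theorem isHom_pQ' (Y E : RedAV p ν) : IsHom (prodR Y E).X E.X (pQ' Y E) :=
  ⟨prT' Y.X E.X, fun _ => rfl⟩

/-! ### The comparison map -/

section theta

variable (Ω : Type) [Field Ω] [CharZero Ω] (t : ℕ) (B : RedAV p ν)

/-- The toric component of a rational vector. -/
def tz (w : (prodR B (Et p ν t)).X.H1) : Fin t → Kf p := pQ' B (Et p ν t) w

theorem tz_add (v w : (prodR B (Et p ν t)).X.H1) : tz t B (v + w) = tz t B v + tz t B w := rfl

theorem tz_smul (a : ℚ) (v : (prodR B (Et p ν t)).X.H1) : tz t B (a • v) = a • tz t B v := rfl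

/-- The comparison map on rational vectors. -/
def theta0 : (prodR B (Et p ν t)).X.H1 →ₗ[ℚ] VM Ω t B where
  toFun w := torK Ω B (tz t B w) + abe t (1 ⊗ₜ[ℚ] pQ B (Et p ν t) w)
  map_add' v w := by
    have h1 : ∀ a b : TM Ω B, (abe t (a + b) : VM Ω t B) = abe t a + abe t b := by
      intro a b
      unfold abe
      simp
    rw [tz_add, torK_add, map_add, TensorProduct.tmul_add, h1]
    abel
  map_smul' a w := by
    have h1 : ∀ b : TM Ω B, (abe t (a • b) : VM Ω t B) = a • abe t b := by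
      intro b
      unfold abe
      simp
    have h2 : ∀ b : VM Ω t B, (a : Ω) • b = a • b := by
      intro b
      rw [← eq_ratCast (algebraMap ℚ Ω) a, algebraMap_smul]
    rw [tz_smul, torK_smul, map_smul, TensorProduct.tmul_smul, h1, h2, ← smul_add]
    rfl

/-- The comparison map. -/
def Theta : TM Ω (prodR B (Et p ν t)) →ₗ[Ω] VM Ω t B :=
  LinearMap.liftBaseChange Ω (theta0 Ω t B)

theorem Theta_one (w : (prodR B (Et p ν t)).X.H1) : Theta Ω t B (1 ⊗ₜ[ℚ] w) =
    torK Ω B (tz t B w) + abe t (1 ⊗ₜ[ℚ] pQ B (Et p ν t) w) := by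
  unfold Theta
  rw [LinearMap.liftBaseChange_tmul, one_smul]
  rfl

end theta

/-! ### Invariance of the slices -/

section inv

variable (p) in
theorem coord_dil (a : ℚ) (x : Kf p) : (bK p).coord 0 (dil (bK p) a x) = a * (bK p).coord 0 x ∧
    (bK p).coord 1 (dil (bK p) a x) = a⁻¹ * (bK p).coord 1 x := by
  have h := (bK p).sum_repr x
  rw [Fin.sum_univ_two] at h
  have h0 : (bK p).repr x 0 = (bK p).coord 0 x := rfl
  have h1 : (bK p).repr x 1 = (bK p).coord 1 x := rfl
  rw [h0, h1] at h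
  have h2 : dil (bK p) a x = ((bK p).coord 0 x * a) • bK p 0 + ((bK p).coord 1 x * a⁻¹) • bK p 1 := by
    conv_lhs => rw [← h]
    rw [map_add, map_smul, map_smul, dil_zero, dil_one, smul_smul, smul_smul]
  rw [h2]
  constructor
  · rw [map_add, map_smul, map_smul, coord_self, coord_ne p (by decide)]
    simp only [smul_eq_mul]
    ring
  · rw [map_add, map_smul, map_smul, coord_self, coord_ne p (by decide)]
    simp only [smul_eq_mul]
    ring

variable (p) in
theorem coord_uni (x : Kf p) :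
    (bK p).coord 0 (uni (bK p) x) = (bK p).coord 0 x + (bK p).coord 1 x ∧
    (bK p).coord 1 (uni (bK p) x) = (bK p).coord 1 x := by
  have h := (bK p).sum_repr x
  rw [Fin.sum_univ_two] at h
  have h0 : (bK p).repr x 0 = (bK p).coord 0 x := rfl
  have h1 : (bK p).repr x 1 = (bK p).coord 1 x := rfl
  rw [h0, h1] at h
  have h2 : uni (bK p) x = ((bK p).coord 0 x + (bK p).coord 1 x) • bK p 0 +
      ((bK p).coord 1 x) • bK p 1 := by
    conv_lhs => rw [← h]
    rw [map_add, map_smul, map_smul, uni_zero, uni_one, smul_add, add_smul]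
    abel
  rw [h2]
  constructor
  · rw [map_add, map_smul, map_smul, coord_self, coord_ne p (by decide)]
    simp only [smul_eq_mul]
    ring
  · rw [map_add, map_smul, map_smul, coord_self, coord_ne p (by decide)]
    simp only [smul_eq_mul]
    ring

variable {Ω : Type} [Field Ω] [CharZero Ω] {t : ℕ} {B : RedAV p ν} {κ κ₁ κ₂ : Type}

theorem sliceMap_dil {f : (VM Ω t B) [⋀^κ]→ₗ[Ω] Ω} (hf : HasWeightZero f) (e : κ₁ ⊕ κ₂ ≃ κ)
    (a : ℚ) (ha : a ≠ 0) (z : κ₁ → Fin t → Kf p) :
    sliceMap f e (fun l i => dil (bK p) a (z l i)) = sliceMap f e z := by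
  refine AlternatingMap.ext fun b => ?_
  rw [sliceMap_apply, sliceMap_apply]
  refine Eq.trans ?_ (hf a ha _)
  congr 1
  funext k
  rcases e.symm k with l | l
  · change torK Ω B (fun i => dil (bK p) a (z l i)) = ((a : Ω) • (torK Ω B (z l)).1,
      ((a⁻¹ : ℚ) : Ω) • (torK Ω B (z l)).2.1, (torK Ω B (z l)).2.2)
    unfold torK tor
    refine Prod.ext ?_ (Prod.ext ?_ rfl)
    · funext i
      change (((bK p).coord 0 (dil (bK p) a (z l i)) : ℚ) : Ω) =
        (a : Ω) * (((bK p).coord 0 (z l i) : ℚ) : Ω)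
      rw [(coord_dil p a (z l i)).1, Rat.cast_mul]
    · funext i
      change (((bK p).coord 1 (dil (bK p) a (z l i)) : ℚ) : Ω) =
        ((a⁻¹ : ℚ) : Ω) * (((bK p).coord 1 (z l i) : ℚ) : Ω)
      rw [(coord_dil p a (z l i)).2, Rat.cast_mul]
  · change abe t (b l) = ((a : Ω) • (abe t (b l) : VM Ω t B).1,
      ((a⁻¹ : ℚ) : Ω) • (abe t (b l) : VM Ω t B).2.1, (abe t (b l) : VM Ω t B).2.2)
    unfold abe
    simp

theorem sliceMap_uni {f : (VM Ω t B) [⋀^κ]→ₗ[Ω] Ω} (hf : IsInertiaInvariant f) (e : κ₁ ⊕ κ₂ ≃ κ)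
    (z : κ₁ → Fin t → Kf p) :
    sliceMap f e (fun l i => uni (bK p) (z l i)) = sliceMap f e z := by
  refine AlternatingMap.ext fun b => ?_
  rw [sliceMap_apply, sliceMap_apply]
  refine Eq.trans ?_ (hf _)
  congr 1
  funext k
  rcases e.symm k with l | l
  · change torK Ω B (fun i => uni (bK p) (z l i)) = ((torK Ω B (z l)).1 + (torK Ω B (z l)).2.1,
      (torK Ω B (z l)).2.1, (torK Ω B (z l)).2.2)
    unfold torK tor
    refine Prod.ext ?_ (Prod.ext ?_ rfl)
    · funext i
      change (((bK p).coord 0 (uni (bK p) (z l i)) : ℚ) : Ω) =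
        (((bK p).coord 0 (z l i) : ℚ) : Ω) + (((bK p).coord 1 (z l i) : ℚ) : Ω)
      rw [(coord_uni p (z l i)).1, Rat.cast_add]
    · funext i
      change (((bK p).coord 1 (uni (bK p) (z l i)) : ℚ) : Ω) =
        (((bK p).coord 1 (z l i) : ℚ) : Ω)
      rw [(coord_uni p (z l i)).2]
  · change abe t (b l) = ((abe t (b l) : VM Ω t B).1 + (abe t (b l) : VM Ω t B).2.1,
      (abe t (b l) : VM Ω t B).2.1, (abe t (b l) : VM Ω t B).2.2)
    unfold abe
    simp

end inv

/-! ### The forms on `E ^ t` -/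

section toric

variable {Ω : Type} [Field Ω] [CharZero Ω]
  {C : (Y : RedAV p ν) → (κ : Type) → ((TM Ω Y) [⋀^κ]→ₗ[Ω] Ω) → Prop}

theorem neg_one_dil (x : Kf p) : dil (bK p) (-1) x = -x := by
  have h : dil (bK p) (-1) = -LinearMap.id := by
    refine (bK p).ext fun i => ?_
    fin_cases i
    · change dil (bK p) (-1) (bK p 0) = -bK p 0
      rw [dil_zero, neg_one_smul]
    · change dil (bK p) (-1) (bK p 1) = -bK p 1
      rw [dil_one, inv_neg, inv_one, neg_one_smul]
  rw [h]
  rfl

/-- The form `f` is a class of a cycle, for variables indexed by any finite type. -/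
theorem toric_mem' (hC : IsCycleSystem Ω C) {t : ℕ} {κ : Type} [Fintype κ]
    (f : (Fin t → Kf p) [⋀^κ]→ₗ[ℚ] ℚ)
    (hd : ∀ a : ℚ, a ≠ 0 → ∀ v, f (fun k i => dil (bK p) a (v k i)) = f v)
    (hu : ∀ v, f (fun k i => uni (bK p) (v k i)) = f v)
    (F : (TM Ω (Et p ν t)) [⋀^κ]→ₗ[Ω] Ω)
    (hF : ∀ v : κ → Fin t → Kf p, res (Y := Et p ν t) F v = (f v : Ω)) :
    C (Et p ν t) κ F := by
  classical
  rcases Nat.even_or_odd (Fintype.card κ) with ⟨m, hm⟩ | hodd
  · let e : κ ≃ Fin m × Fin 2 := Fintype.equivOfCardEq (by simp [hm, mul_two])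
    have h1 := toric_mem p ν hC (f.domDomCongr e)
      (fun a ha v => hd a ha (fun k => v (e k))) (fun v => hu (fun k => v (e k)))
      (F.domDomCongr e) (fun v => hF (fun k => v (e k)))
    have h2 := hC.reindex e.symm _ h1
    have h3 : (F.domDomCongr e).domDomCongr e.symm = F := by
      refine AlternatingMap.ext fun v => ?_
      change F (fun k => v (e.symm (e k))) = F v
      congr 1
      funext k
      rw [e.symm_apply_apply]
    rw [h3] at h2
    exact h2
  · have h1 : ∀ v, f v = 0 := by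
      intro v
      have h2 := hd (-1) (by norm_num) v
      have h3 : (fun k i => dil (bK p) (-1) (v k i)) = fun k => (-1 : ℚ) • v k := by
        funext k i
        rw [neg_one_dil, Pi.smul_apply, neg_one_smul]
      have h4 : f (fun k => (-1 : ℚ) • v k) = (∏ _k : κ, (-1 : ℚ)) • f v :=
        f.toMultilinearMap.map_smul_univ (fun _ => (-1 : ℚ)) v
      rw [h3, h4, Finset.prod_const, Finset.card_univ, Odd.neg_one_pow hodd, smul_eq_mul] at h2
      linarith
    have h2 : F = 0 := ext_res (Y := Et p ν t) fun v => by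
      refine (hF v).trans ?_
      have h5 := h1 v
      exact (congrArg (fun a : ℚ => (a : Ω)) h5).trans Rat.cast_zero
    rw [h2]
    exact hC.zero _ _

end toric

end

end Pool.Agent.X268.DG
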