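import Pool.Agent.X268.DG.Ell

/-!
# Invariant rational forms on the powers of the supersingular elliptic curve are classes of cycles
-/

set_option autoImplicit false

namespace Pool.Agent.X268.DG

open NumberField Module Equiv Pool.Agent.H204R3.CM Pool.Agent.H204R3.SP Pool.Agent.W547.KB
  Pool.Agent.W547.LD Pool.Agent.W547.HR Pool.Agent.W495.TA Pool.Agent.W495.TC
  Pool.Agent.TH117.PO Pool.Agent.TH117.BL
open scoped TensorProduct

noncomputable section

section general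

variable {p : ℕ} [hp : Fact p.Prime] {ν : PadicAlgCl p ≃+* ℂ} {Ω : Type} [Field Ω] [CharZero Ω]
  {C : (Y : RedAV p ν) → (κ : Type) → ((TM Ω Y) [⋀^κ]→ₗ[Ω] Ω) → Prop}

/-- Extension of a rational form to the Tate module. -/
theorem exists_ext (Ω : Type) [Field Ω] [CharZero Ω] {Y : RedAV p ν} {κ : Type} [Fintype κ]
    [DecidableEq κ] (f : Y.X.H1 [⋀^κ]→ₗ[ℚ] ℚ) :
    ∃ F : (TM Ω Y) [⋀^κ]→ₗ[Ω] Ω, ∀ v, res F v = (f v : Ω) := by
  let b := Module.finBasis ℚ Y.X.H1
  refine ⟨(((Fintype.card κ).factorial : Ω)⁻¹) • MultilinearMap.alternatization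
    (bcm (Ω := Ω) b f.toMultilinearMap), fun v => ?_⟩
  have h1 : res ((((Fintype.card κ).factorial : Ω)⁻¹) • MultilinearMap.alternatization
      (bcm (Ω := Ω) b f.toMultilinearMap)) v = (((Fintype.card κ).factorial : Ω)⁻¹) *
      MultilinearMap.alternatization (bcm (Ω := Ω) b f.toMultilinearMap)
        (fun k => (1 : Ω) ⊗ₜ[ℚ] v k) := rfl
  rw [h1, MultilinearMap.alternatization_apply]
  have h2 : ∀ σ : Perm κ, (Perm.sign σ) • ((bcm (Ω := Ω) b f.toMultilinearMap).domDomCongr σ)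
      (fun k => (1 : Ω) ⊗ₜ[ℚ] v k) = (f v : Ω) := by
    intro σ
    rw [MultilinearMap.domDomCongr_apply, bcm_one b f.toMultilinearMap fun k => v (σ k)]
    have h3 : f.toMultilinearMap (fun k => v (σ k)) = (Perm.sign σ) • f v := f.map_perm v σ
    rw [h3, Units.smul_def, Units.smul_def, zsmul_eq_mul, zsmul_eq_mul, map_mul, map_intCast,
      ← mul_assoc, ← Int.cast_mul, ← Units.val_mul, Int.units_mul_self, Units.val_one,
      Int.cast_one, one_mul]
    rfl
  rw [Finset.sum_congr rfl fun σ _ => h2 σ, Finset.sum_const, Finset.card_univ, Fintype.card_perm,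
    nsmul_eq_mul, inv_mul_cancel_left₀ (Nat.cast_ne_zero.2 (Nat.factorial_ne_zero _))]

/-- Products of classes of degree two. -/
theorem prod_mem (hC : IsCycleSystem Ω C) {Y : RedAV p ν} (m : ℕ)
    (B : Fin m → (TM Ω Y) [⋀^Fin 2]→ₗ[Ω] Ω) (hB : ∀ s, C Y (Fin 2) (B s)) :
    ∃ (f : (TM Ω Y) [⋀^Fin m × Fin 2]→ₗ[Ω] Ω) (a : ℚ), a ≠ 0 ∧ C Y (Fin m × Fin 2) f ∧
      ∀ v, f v = (a : Ω) * altSum (fun w => ∏ s, B s ![w (s, 0), w (s, 1)]) v := by
  classical
  induction m with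
  | zero =>
    refine ⟨AlternatingMap.constOfIsEmpty Ω _ _ 1, 1, one_ne_zero, hC.unit _ fun v => rfl,
      fun v => ?_⟩
    unfold altSum
    simp
  | succ m ih =>
    obtain ⟨f, a, ha, hf, hfv⟩ := ih (fun s => B s.succ) fun s => hB s.succ
    refine ⟨(cupO (B 0) f).domDomCongr (gE m), Fintype.card (Perm (Fin m × Fin 2)) * a,
      mul_ne_zero (Nat.cast_ne_zero.2 Fintype.card_ne_zero) ha,
      hC.reindex _ _ (hC.cup (B 0) f (hB 0) hf _ fun v => cupO_apply (B 0) f v), fun v => ?_⟩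
    have h1 : ((cupO (B 0) f).domDomCongr (gE m)) v = cupO (B 0) f (fun p => v (gE m p)) := rfl
    have h2 : ∀ w : Fin 2 ⊕ (Fin m × Fin 2) → TM Ω Y, cupO (B 0) f w =
        altSum (times (fun u : Fin 2 → TM Ω Y => B 0 ![u 0, u 1])
          (fun u => (a : Ω) * altSum (fun w => ∏ s : Fin m, B s.succ ![w (s, 0), w (s, 1)]) u))
            w := by
      intro w
      rw [cupO_apply]
      unfold altSum times
      refine Finset.sum_congr rfl fun σ _ => ?_
      rw [hfv]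
      congr 2
      change B 0 _ = B 0 _
      congr 1
      funext k
      fin_cases k <;> rfl
    have h3 : altSum (times (fun u : Fin 2 → TM Ω Y => B 0 ![u 0, u 1])
        (fun u => (a : Ω) * altSum (fun w => ∏ s : Fin m, B s.succ ![w (s, 0), w (s, 1)]) u))
          (fun p => v (gE m p)) =
        (a : Ω) * altSum (times (fun u : Fin 2 → TM Ω Y => B 0 ![u 0, u 1])
          (altSum (fun w => ∏ s : Fin m, B s.succ ![w (s, 0), w (s, 1)])))
            (fun p => v (gE m p)) := by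
      rw [← altSum_const_mul]
      congr 1
      funext w
      unfold times
      ring
    have h4 : altSum (fun w => ∏ s : Fin (m + 1), B s ![w (s, 0), w (s, 1)]) v =
        altSum (times (fun u : Fin 2 → TM Ω Y => B 0 ![u 0, u 1])
          (fun w => ∏ s : Fin m, B s.succ ![w (s, 0), w (s, 1)])) (fun p => v (gE m p)) := by
      rw [← altSum_reindex (gE m)]
      congr 1
      funext w
      unfold times
      rw [Fin.prod_univ_succ]
      rfl
    rw [h1, h2, h3, altSum_absorb, h4]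
    push_cast
    ring

end general

section ell

variable (p : ℕ) [hp : Fact p.Prime] (ν : PadicAlgCl p ≃+* ℂ)

theorem gen_re_im (φ : Kf p →+* ℂ) (h : 0 < (φ (gen p)).im) : (φ (gen p)).re = 0 := by
  have h1 := map_gen_sq p φ
  have h2 := congrArg Complex.im h1
  rw [sq, Complex.mul_im, Complex.neg_im, Complex.natCast_im] at h2
  nlinarith

theorem polar_aux (c : ℚ) (hc : 0 < c) (φ : Kf p →+* ℂ) (h : 0 < (φ (gen p)).im) :
    (φ (c • gen p)).re = 0 ∧ 0 < (φ (c • gen p)).im := by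
  have h1 : φ (c • gen p) = (c : ℂ) * φ (gen p) := by
    rw [map_rat_smul, Rat.smul_def]
  have h4 : (0 : ℝ) < c := by exact_mod_cast hc
  rw [h1, Complex.mul_re, Complex.ratCast_re, Complex.ratCast_im, zero_mul, sub_zero,
    Complex.mul_im, Complex.ratCast_re, Complex.ratCast_im, zero_mul, add_zero,
    gen_re_im p φ h, mul_zero]
  exact ⟨rfl, mul_pos h4 h⟩

theorem isPolar_kp (t : ℕ) (c : Fin t → ℚ) (hc : ∀ i, 0 < c i) :
    IsPolar (power (kp p) t) (fun i => (c i • gen p : Kf p)) :=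
  fun i φ hφ => polar_aux p (c i) (hc i) φ hφ

theorem riemann_kp (t : ℕ) (c : Fin t → ℚ) (x y : Fin t → Kf p) :
    riemannForm (power (kp p) t) (fun i => (c i • gen p : Kf p)) x y =
      ∑ i, 2 * p * (c i * om p (x i) (y i)) := by
  unfold riemannForm
  refine Finset.sum_congr rfl fun i _ => ?_
  change Algebra.trace ℚ (Kf p) ((c i • gen p) * IsCMField.complexConj (Kf p) (x i) * y i) = _
  rw [smul_mul_assoc, smul_mul_assoc, map_smul, trace_form, smul_eq_mul]
  ring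

theorem smul_swap (a b : ℚ) (x : Kf p) : a • (b • x) = b • (a • x) := by
  rw [smul_smul, smul_smul, mul_comm]

/-- The homomorphism `E ^ t → E` with rational coefficients. -/
def lin (t : ℕ) (r : Fin t → ℚ) : (power (kp p) t).H1 →ₗ[ℚ] (power (kp p) 1).H1 where
  toFun x := fun _ => ∑ i, r i • (x i : Kf p)
  map_add' x y := by
    funext _
    change ∑ i, r i • ((x i : Kf p) + (y i : Kf p)) = (∑ i, r i • (x i : Kf p)) + ∑ i, r i • (y i : Kf p)
    rw [← Finset.sum_add_distrib]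
    exact Finset.sum_congr rfl fun i _ => smul_add _ _ _
  map_smul' a x := by
    funext _
    change ∑ i, r i • (a • (x i : Kf p)) = a • ∑ i, r i • (x i : Kf p)
    rw [Finset.smul_sum]
    exact Finset.sum_congr rfl fun i _ => smul_swap p (r i) a (x i)

theorem isHom_lin (t : ℕ) (r : Fin t → ℚ) :
    IsHom (power (kp p) t) (power (kp p) 1) (lin p t r) := by
  refine ⟨{ toFun := fun u => fun _ φ => ∑ i, (r i : ℂ) * u i φ
            map_add' := ?_
            map_smul' := ?_ }, fun w => ?_⟩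
  · intro u v
    funext _ φ
    change ∑ i, (r i : ℂ) * (u i φ + v i φ) = (∑ i, (r i : ℂ) * u i φ) + ∑ i, (r i : ℂ) * v i φ
    rw [← Finset.sum_add_distrib]
    exact Finset.sum_congr rfl fun i _ => mul_add _ _ _
  · intro a u
    funext _ φ
    change ∑ i, (r i : ℂ) * (a * u i φ) = a * ∑ i, (r i : ℂ) * u i φ
    rw [Finset.mul_sum]
    exact Finset.sum_congr rfl fun i _ => by ring
  · funext _ φ
    change ∑ i, (r i : ℂ) * (φ.1 : Kf p →+* ℂ) (w i) = (φ.1 : Kf p →+* ℂ) (∑ i, r i • (w i : Kf p))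
    rw [map_sum]
    refine Finset.sum_congr rfl fun i _ => ?_
    rw [map_rat_smul, Rat.smul_def]

variable {Ω : Type} [Field Ω] [CharZero Ω]
  {C : (Y : RedAV p ν) → (κ : Type) → ((TM Ω Y) [⋀^κ]→ₗ[Ω] Ω) → Prop}

/-- The pull-back of the polarization of `E` along a homomorphism with rational coefficients. -/
theorem lin_mem (hC : IsCycleSystem Ω C) (t : ℕ) (r : Fin t → ℚ) :
    ∃ g : (TM Ω (Et p ν t)) [⋀^Fin 2]→ₗ[Ω] Ω, C (Et p ν t) (Fin 2) g ∧
      ∀ v : Fin 2 → Fin t → Kf p, res (Y := Et p ν t) g v =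
        ((2 * p * om p (∑ i, r i • v 0 i) (∑ i, r i • v 1 i) : ℚ) : Ω) := by
  have hα := isPolar_kp p 1 (fun _ => 1) (fun _ => one_pos)
  obtain ⟨f, hf, hfv⟩ := exists_divisor (isPolarization hα)
  obtain ⟨F, hF⟩ := exists_ext (ν := ν) Ω (Y := Et p ν 1) f
  have h1 : C (Et p ν 1) (Fin 2) F := hC.hodge f (isHodge_of_ring hf) F hF
  have h2 := hC.pull (Y := Et p ν t) (Z := Et p ν 1) (lin p t r) (isHom_lin p t r) F h1
  refine ⟨_, h2, fun v => ?_⟩
  have h3 := res_pull (Y := Et p ν t) (Z := Et p ν 1) (lin p t r) F v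
  rw [h3, hF]
  congr 1
  refine (hfv _).trans ?_
  have h4 := riemann_kp p 1 (fun _ => 1) (fun _ => ∑ i, r i • v 0 i) (fun _ => ∑ i, r i • v 1 i)
  rw [Fin.sum_univ_one, one_mul] at h4
  exact h4

/-- The elementary forms. -/
theorem elem_mem (hC : IsCycleSystem Ω C) (t : ℕ)
    (B : MultilinearMap ℚ (fun _ : Fin 2 => Fin t → Kf p) ℚ) (hB : B ∈ BB (om p) t) :
    ∃ g : (TM Ω (Et p ν t)) [⋀^Fin 2]→ₗ[Ω] Ω, C (Et p ν t) (Fin 2) g ∧
      ∀ v : Fin 2 → Fin t → Kf p, res (Y := Et p ν t) g v =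
        ((MultilinearMap.alternatization B v : ℚ) : Ω) := by
  obtain ⟨a, b, rfl⟩ := hB
  obtain ⟨g1, hg1, e1⟩ := lin_mem p ν hC t (Pi.single a 1 + Pi.single b 1)
  obtain ⟨g2, hg2, e2⟩ := lin_mem p ν hC t (Pi.single a 1)
  obtain ⟨g3, hg3, e3⟩ := lin_mem p ν hC t (Pi.single b 1)
  refine ⟨((1 / (2 * p) : ℚ) : Ω) • (g1 + (((-1 : ℚ) : Ω) • g2 + ((-1 : ℚ) : Ω) • g3)),
    hC.smul _ _ (hC.add _ _ hg1 (hC.add _ _ (hC.smul _ _ hg2) (hC.smul _ _ hg3))), fun v => ?_⟩
  have h1 : res (Y := Et p ν t) (((1 / (2 * p) : ℚ) : Ω) •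
      (g1 + (((-1 : ℚ) : Ω) • g2 + ((-1 : ℚ) : Ω) • g3))) v = ((1 / (2 * p) : ℚ) : Ω) *
      (res (Y := Et p ν t) g1 v + (((-1 : ℚ) : Ω) * res (Y := Et p ν t) g2 v +
        ((-1 : ℚ) : Ω) * res (Y := Et p ν t) g3 v)) := rfl
  have hs : ∀ (c : Fin t) (w : Fin t → Kf p), ∑ i, (Pi.single c (1 : ℚ) : Fin t → ℚ) i • w i = w c := by
    intro c w
    rw [Finset.sum_eq_single c]
    · rw [Pi.single_eq_same, one_smul]
    · intro i _ hi
      rw [Pi.single_eq_of_ne hi, zero_smul]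
    · intro h
      exact absurd (Finset.mem_univ c) h
  have hs2 : ∀ w : Fin t → Kf p, ∑ i, (Pi.single a (1 : ℚ) + Pi.single b 1 : Fin t → ℚ) i • w i =
      w a + w b := by
    intro w
    rw [← hs a w, ← hs b w, ← Finset.sum_add_distrib]
    refine Finset.sum_congr rfl fun i _ => ?_
    rw [Pi.add_apply, add_smul]
  rw [h1, e1, e2, e3, hs2, hs2, hs, hs, hs, hs, MultilinearMap.alternatization_apply]
  rw [show (Finset.univ : Finset (Perm (Fin 2))) = {1, Equiv.swap 0 1} from by decide,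
    Finset.sum_pair (by decide)]
  have h2 : ((bil2 ((om p).compl₁₂ (LinearMap.proj (φ := fun _ : Fin t => Kf p) a)
      (LinearMap.proj b))).domDomCongr (1 : Perm (Fin 2))) v = om p (v 0 a) (v 1 b) := rfl
  have h3 : ((bil2 ((om p).compl₁₂ (LinearMap.proj (φ := fun _ : Fin t => Kf p) a)
      (LinearMap.proj b))).domDomCongr (Equiv.swap (0 : Fin 2) 1)) v = om p (v 1 a) (v 0 b) := rfl
  rw [h2, h3, Perm.sign_one, one_smul, Perm.sign_swap (by decide), Units.neg_smul, one_smul]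
  have h4 : om p (v 0 a + v 0 b) (v 1 a + v 1 b) = om p (v 0 a) (v 1 a) + om p (v 0 a) (v 1 b) +
      om p (v 0 b) (v 1 a) + om p (v 0 b) (v 1 b) := by
    simp only [map_add, LinearMap.add_apply]
    ring
  have h5 : om p (v 1 a) (v 0 b) = -om p (v 0 b) (v 1 a) := by
    rw [om_apply, om_apply]
    ring
  rw [h4, h5]
  have hp0 : (p : Ω) ≠ 0 := Nat.cast_ne_zero.2 hp.out.ne_zero
  push_cast
  field_simp
  ring

/-- **Rational forms on `E ^ t` of weight zero and invariant under the unipotent operator are classes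
of cycles.** -/
theorem toric_mem (hC : IsCycleSystem Ω C) {t m : ℕ} (f : (Fin t → Kf p) [⋀^Fin m × Fin 2]→ₗ[ℚ] ℚ)
    (hd : ∀ a : ℚ, a ≠ 0 → ∀ v, f (fun k i => dil (bK p) a (v k i)) = f v)
    (hu : ∀ v, f (fun k i => uni (bK p) (v k i)) = f v)
    (F : (TM Ω (Et p ν t)) [⋀^Fin m × Fin 2]→ₗ[Ω] Ω)
    (hF : ∀ v : Fin m × Fin 2 → Fin t → Kf p, res (Y := Et p ν t) F v = (f v : Ω)) :
    C (Et p ν t) (Fin m × Fin 2) F := by
  classical
  have key : ∀ g ∈ Submodule.span ℚ {g : (Fin t → Kf p) [⋀^Fin m × Fin 2]→ₗ[ℚ] ℚ |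
      ∃ B : Fin m → MultilinearMap ℚ (fun _ : Fin 2 => Fin t → Kf p) ℚ, (∀ s, B s ∈ BB (om p) t) ∧
        ∀ v, g v = ∑ σ : Equiv.Perm (Fin m × Fin 2), ((Equiv.Perm.sign σ : ℤ) : ℚ) *
          ∏ s, (MultilinearMap.alternatization (B s)) ![v (σ (s, 0)), v (σ (s, 1))]},
      ∃ G : (TM Ω (Et p ν t)) [⋀^Fin m × Fin 2]→ₗ[Ω] Ω, C (Et p ν t) (Fin m × Fin 2) G ∧
        ∀ v : Fin m × Fin 2 → Fin t → Kf p, res (Y := Et p ν t) G v = (g v : Ω) := by
    intro g hg
    induction hg using Submodule.span_induction with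
    | mem g hg =>
      obtain ⟨B, hB, hgv⟩ := hg
      choose G hG hGv using fun s => elem_mem p ν hC t (B s) (hB s)
      obtain ⟨F', a, ha, hF', hFv⟩ := prod_mem hC m G hG
      refine ⟨((a⁻¹ : ℚ) : Ω) • F', hC.smul _ _ hF', fun v => ?_⟩
      have h1 : res (Y := Et p ν t) (((a⁻¹ : ℚ) : Ω) • F') v =
        ((a⁻¹ : ℚ) : Ω) * F' (fun k => (1 : Ω) ⊗ₜ[ℚ] (v k : (Et p ν t).X.H1)) := rfl
      have ha' : (a : Ω) ≠ 0 := Rat.cast_ne_zero.2 ha
      rw [h1, hFv, Rat.cast_inv, inv_mul_cancel_left₀ ha', hgv]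
      unfold altSum
      push_cast
      refine Finset.sum_congr rfl fun σ _ => ?_
      congr 1
      refine Finset.prod_congr rfl fun s _ => ?_
      rw [← hGv s ![v (σ (s, 0)), v (σ (s, 1))]]
      unfold res
      congr 1
      funext k
      fin_cases k <;> rfl
    | zero => exact ⟨0, hC.zero _ _, fun v => by simp [res]⟩
    | add a b _ _ ha hb =>
      obtain ⟨A, hA, hAv⟩ := ha
      obtain ⟨B, hB, hBv⟩ := hb
      refine ⟨A + B, hC.add _ _ hA hB, fun v => ?_⟩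
      have h1 : res (Y := Et p ν t) (A + B) v = res (Y := Et p ν t) A v +
        res (Y := Et p ν t) B v := rfl
      rw [h1, hAv, hBv, AlternatingMap.add_apply, Rat.cast_add]
    | smul c a _ ha =>
      obtain ⟨A, hA, hAv⟩ := ha
      refine ⟨(c : Ω) • A, hC.smul _ _ hA, fun v => ?_⟩
      have h1 : res (Y := Et p ν t) ((c : Ω) • A) v = (c : Ω) * res (Y := Et p ν t) A v := rfl
      rw [h1, hAv, AlternatingMap.smul_apply, smul_eq_mul, Rat.cast_mul]
  obtain ⟨G, hG, hGv⟩ := key f (alt_mem (om_basis p) f hd hu)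
  have h1 : F = G := ext_res (Y := Et p ν t) fun v => by
    rw [show res F v = _ from hF v, show res G v = _ from hGv v]
  rw [h1]
  exact hG

end ell

end

end Pool.Agent.X268.DG
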